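import Pool.Agent.R779.FJ.Col
import Pool.Agent.Y961.FJ.Perm
import Pool.Agent.Y529.FJ.Ext

/-!
# Extensions whose conjugations are locally automorphisms of finite order modulo inner ones
-/

set_option autoImplicit false

namespace Pool.Agent.R630.FJ

open Pool.Agent.Y110.FJ
open Pool.Agent.Y462.SS (Closed)

theorem crit : S_CRIT :=
  Pool.Agent.R779.FJ.t_crit Pool.Agent.Y529.FJ.t_ext (Pool.Agent.Y961.FJ.t_perm Pool.Agent.Y529.FJ.t_ext)

section cyc

variable {N : Type} [Group N] (σ : MulAut N)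

/-- the mapping torus of `σ` -/
abbrev MT : Type := N ⋊[zpowersHom (MulAut N) σ] Multiplicative ℤ

theorem pow_conj {k : ℕ} {n₀ : N} (h : σ ^ k = MulAut.conj n₀) (j : ℤ) (x : N) :
    (zpowersHom (MulAut N) σ (Multiplicative.ofAdd ((k : ℤ) * j))) x = n₀ ^ j * x * (n₀ ^ j)⁻¹ := by
  have h1 : zpowersHom (MulAut N) σ (Multiplicative.ofAdd ((k : ℤ) * j)) = MulAut.conj (n₀ ^ j) := by
    rw [zpowersHom_apply, toAdd_ofAdd, zpow_mul, zpow_natCast, h, map_zpow]
  rw [h1, MulAut.conj_apply]

/-- the subgroup of index `k` -/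
def Ksub (k : ℕ) : Subgroup (MT σ) :=
  (Subgroup.zpowers (Multiplicative.ofAdd (k : ℤ))).comap SemidirectProduct.rightHom

theorem exists_j {k : ℕ} (x : Ksub σ k) : ∃ j : ℤ,
    (x : MT σ).right = Multiplicative.ofAdd ((k : ℤ) * j) := by
  obtain ⟨j, hj⟩ := Subgroup.mem_zpowers_iff.1 x.2
  refine ⟨j, ?_⟩
  have h1 : (x : MT σ).right = (Multiplicative.ofAdd (k : ℤ)) ^ j := hj.symm
  rw [h1, ← ofAdd_zsmul, smul_eq_mul, mul_comm]

theorem mt_mem {C : ∀ (G : Type) [Group G], Prop} (hC : Closed C) {k : ℕ} (hk : 0 < k) {n₀ : N}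
    (h : σ ^ k = MulAut.conj n₀) (hN : C N) : C (MT σ) := by
  have hk0 : (k : ℤ) ≠ 0 := by exact_mod_cast hk.ne'
  have hdiv : ∀ j : ℤ, (k : ℤ) * j / k = j := fun j => Int.mul_ediv_cancel_left j hk0
  have hdm : ∀ x : Ksub σ k, ∃ j : ℤ, (x : MT σ).right = Multiplicative.ofAdd ((k : ℤ) * j) ∧
      Multiplicative.toAdd (x : MT σ).right / k = j := by
    intro x
    obtain ⟨j, hj⟩ := exists_j σ x
    exact ⟨j, hj, by rw [hj, toAdd_ofAdd, hdiv]⟩
  let F : Ksub σ k →* N × Multiplicative ℤ :=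
    { toFun := fun x => ((x : MT σ).left * n₀ ^ (Multiplicative.toAdd (x : MT σ).right / (k : ℤ)),
        (x : MT σ).right)
      map_one' := by
        refine Prod.ext ?_ rfl
        show (1 : N) * n₀ ^ ((0 : ℤ) / (k : ℤ)) = 1
        rw [Int.zero_ediv, zpow_zero, one_mul]
      map_mul' := by
        intro x y
        obtain ⟨j, hj, hj'⟩ := hdm x
        obtain ⟨i, hi, hi'⟩ := hdm y
        refine Prod.ext ?_ rfl
        show ((x : MT σ) * (y : MT σ)).left *
            n₀ ^ (Multiplicative.toAdd ((x : MT σ) * (y : MT σ)).right / (k : ℤ)) =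
          ((x : MT σ).left * n₀ ^ (Multiplicative.toAdd (x : MT σ).right / (k : ℤ))) *
            ((y : MT σ).left * n₀ ^ (Multiplicative.toAdd (y : MT σ).right / (k : ℤ)))
        rw [hj', hi', SemidirectProduct.mul_left, SemidirectProduct.mul_right, hj, hi,
          pow_conj σ h, ← ofAdd_add, toAdd_ofAdd, ← mul_add, hdiv, zpow_add]
        group }
  have hF : Function.Injective F := by
    rw [injective_iff_map_eq_one]
    intro x hx
    obtain ⟨h1, h2⟩ := Prod.mk.inj hx
    have h2' : (x : MT σ).right = 1 := h2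
    rw [h2', toAdd_one, Int.zero_ediv, zpow_zero, mul_one] at h1
    exact Subtype.ext (SemidirectProduct.ext h1 h2')
  have hfi : (Ksub σ k).FiniteIndex := by
    have h1 : (Ksub σ k).index = (Subgroup.zpowers (Multiplicative.ofAdd (k : ℤ))).index :=
      Subgroup.index_comap_of_surjective _ SemidirectProduct.rightHom_surjective
    constructor
    rw [h1]
    have h2 := Int.index_zmultiples (k : ℤ)
    have h3 : (Subgroup.zpowers (Multiplicative.ofAdd (k : ℤ))).index =
        (AddSubgroup.zmultiples (k : ℤ)).index := by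
      rw [← AddSubgroup.index_toSubgroup]
      rfl
    rw [h3, h2]
    simpa using hk.ne'
  exact hC.finiteIndex _ (Ksub σ k) hfi (hC.of_injective _ _ F hF (hC.prod _ _ hN hC.int))

end cyc

/-- kernels on which the group acts locally by automorphisms of finite order modulo inner ones -/
theorem t_inn : S_INN := by
  intro C hC G _ N _ hN hQ h
  refine crit C hC G N hQ fun g E hE hEN => ?_
  have hfin : (N.subtype ⁻¹' E).Finite := hE.preimage (N.subtype_injective.injOn)
  obtain ⟨σ, k, n, hk, hσ, hx⟩ := h g (N.subtype ⁻¹' E) hfin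
  have hle : Subgroup.closure (E ∪ (fun x => g * x * g⁻¹) '' E) ≤ N := by
    rw [Subgroup.closure_le]
    rintro y (hy | ⟨z, hz, rfl⟩)
    · exact hEN hy
    · exact Subgroup.Normal.conj_mem inferInstance z (hEN hz) g
  refine ⟨MT σ, inferInstance, (SemidirectProduct.inl).comp (Subgroup.inclusion hle),
    SemidirectProduct.inr (Multiplicative.ofAdd (1 : ℤ)), mt_mem σ hC.base hk hσ hN,
    SemidirectProduct.inl_injective.comp (Subgroup.inclusion_injective hle), ?_⟩
  intro x y hxE hy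
  have h1 := hx (Subgroup.inclusion hle x) hxE
  have h2 : Subgroup.inclusion hle y = σ (Subgroup.inclusion hle x) := by
    apply Subtype.ext
    rw [h1]
    exact hy
  show SemidirectProduct.inl (Subgroup.inclusion hle y) = _ * SemidirectProduct.inl _ * _
  have h3 := SemidirectProduct.inl_aut (φ := zpowersHom (MulAut N) σ) (Multiplicative.ofAdd (1 : ℤ))
    (Subgroup.inclusion hle x)
  rw [zpowersHom_apply, toAdd_ofAdd, zpow_one, map_inv] at h3
  rw [h2]
  exact h3

theorem perm_finite_order {Ω : Type} (π : Equiv.Perm Ω) {S : Set Ω} (hS : S.Finite) :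
    ∃ (τ : Equiv.Perm Ω) (k : ℕ), 0 < k ∧ τ ^ k = 1 ∧ ∀ s ∈ S, τ s = π s := by
  classical
  obtain ⟨T, hT⟩ : ∃ T : Set Ω, T = S ∪ π '' S := ⟨_, rfl⟩
  have hTf : T.Finite := by rw [hT]; exact hS.union (hS.image _)
  have : Finite T := hTf
  have : Fintype T := Fintype.ofFinite T
  have hST : ∀ s ∈ S, s ∈ T := fun s hs => by rw [hT]; exact Or.inl hs
  have hπT : ∀ s ∈ S, π s ∈ T := fun s hs => by rw [hT]; exact Or.inr ⟨s, hs, rfl⟩
  let e : {x : T // (x : Ω) ∈ S} ≃ {x : T // (x : Ω) ∈ π '' S} :=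
    { toFun := fun x => ⟨⟨π x.1.1, hπT _ x.2⟩, ⟨x.1.1, x.2, rfl⟩⟩
      invFun := fun y => ⟨⟨π.symm y.1.1, by
          obtain ⟨z, hz, hzy⟩ := y.2
          rw [← hzy, Equiv.symm_apply_apply]
          exact hST z hz⟩, by
          obtain ⟨z, hz, hzy⟩ := y.2
          show π.symm y.1.1 ∈ S
          rw [← hzy, Equiv.symm_apply_apply]
          exact hz⟩
      left_inv := fun x => by
        apply Subtype.ext; apply Subtype.ext
        exact π.symm_apply_apply _
      right_inv := fun y => by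
        apply Subtype.ext; apply Subtype.ext
        exact π.apply_symm_apply _ }
  let τ₀ : Equiv.Perm T := e.extendSubtype
  refine ⟨Equiv.Perm.ofSubtype τ₀, orderOf τ₀, orderOf_pos τ₀, ?_, fun s hs => ?_⟩
  · rw [← map_pow, pow_orderOf_eq_one, map_one]
  · rw [Equiv.Perm.ofSubtype_apply_of_mem τ₀ (hST s hs)]
    have h1 : τ₀ ⟨s, hST s hs⟩ = (e ⟨⟨s, hST s hs⟩, hs⟩ : T) :=
      Equiv.extendSubtype_apply_of_mem e _ hs
    rw [h1]
    rfl

/-- groups on which `G` acts through the permutations of a set on which `N` depends in a finitary way,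
modulo inner automorphisms -/
theorem t_nomx {C : ∀ (G : Type) [Group G], Prop} (hC : ClosedE C) {Ω M G : Type} [Group M] [Group G]
    (α : Equiv.Perm Ω →* MulAut M)
    (hα : ∀ n : M, ∃ S : Set Ω, S.Finite ∧ ∀ π : Equiv.Perm Ω, (∀ s ∈ S, π s = s) → α π n = n)
    (N : Subgroup G) [N.Normal] (e : M ≃* N) (hM : C M) (hQ : C (G ⧸ N))
    (hact : ∀ g : G, ∃ (π : Equiv.Perm Ω) (m : M), ∀ x : M,
      g * (e x : G) * g⁻¹ = (e (m * α π x * m⁻¹) : G)) : C G := by
  refine t_inn C hC G N (hC.base.of_injective _ _ e.symm.toMonoidHom e.symm.injective hM) hQ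
    fun g E hE => ?_
  obtain ⟨π, m, hm⟩ := hact g
  choose S hS hSα using hα
  obtain ⟨τ, k, hk, hτk, hτ⟩ := perm_finite_order π
    (S := ⋃ x ∈ E, S (e.symm x)) (hE.biUnion fun x _ => hS _)
  have hagree : ∀ x ∈ E, α τ (e.symm x) = α π (e.symm x) := by
    intro x hx
    have h1 : α (π⁻¹ * τ) (e.symm x) = e.symm x := by
      refine hSα _ _ fun s hs => ?_
      rw [Equiv.Perm.mul_apply, hτ s (Set.mem_biUnion hx hs)]
      exact π.symm_apply_apply s
    rw [map_mul, MulAut.mul_apply] at h1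
    have h2 := congrArg (α π) h1
    rwa [← MulAut.mul_apply, ← map_mul, mul_inv_cancel, map_one, MulAut.one_apply] at h2
  -- the automorphism of `M`
  have hpow : ∀ j : ℕ, ∃ m' : M, (MulAut.conj m * α τ) ^ j = MulAut.conj m' * (α τ) ^ j := by
    intro j
    induction j with
    | zero => exact ⟨1, by simp⟩
    | succ j ih =>
      obtain ⟨m', hm'⟩ := ih
      refine ⟨m' * ((α τ) ^ j) m, ?_⟩
      rw [pow_succ, hm', map_mul, pow_succ]
      have h3 : (α τ) ^ j * MulAut.conj m = MulAut.conj (((α τ) ^ j) m) * (α τ) ^ j := by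
        ext x
        simp only [MulAut.mul_apply, MulAut.conj_apply, map_mul, map_inv]
      calc MulAut.conj m' * (α τ) ^ j * (MulAut.conj m * α τ)
          = MulAut.conj m' * ((α τ) ^ j * MulAut.conj m) * α τ := by simp only [mul_assoc]
        _ = _ := by rw [h3]; simp only [mul_assoc]
  obtain ⟨m', hm'⟩ := hpow k
  rw [← map_pow, hτk, map_one, mul_one] at hm'
  let cg : MulAut M →* MulAut N := (MulAut.congr e).toMonoidHom
  have hcg : ∀ (f : MulAut M) (y : N), cg f y = e (f (e.symm y)) := fun f y => rfl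
  refine ⟨cg (MulAut.conj m * α τ), k, e m', hk, ?_, fun x hx => ?_⟩
  · rw [← map_pow, hm']
    ext y
    rw [hcg, MulAut.conj_apply, MulAut.conj_apply, map_mul, map_mul, map_inv, e.apply_symm_apply]
  · rw [hcg, MulAut.mul_apply, MulAut.conj_apply, hagree x hx, ← hm, e.apply_symm_apply]

end Pool.Agent.R630.FJ
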