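import Pool.Agent.R630.FJ.Fv
import Pool.Agent.R665.FJ.Am
import Pool.Agent.R941.FJ.Edge

/-!
# Amalgamated products over normal subgroups of one factor with a finite-valued section
-/

set_option autoImplicit false

namespace Pool.Agent.R630.FJ

open Pool.Agent.Y110.FJ
open Pool.Agent.Y462.SS (Closed)
open Pool.Agent.R941.FJ (relA relA_le toG toG_inl toG_inr desc colim_quot)
open Monoid

/-! ### sections of subgroups of abelian groups -/

theorem finite_box {ι : Type} [Finite ι] (c : ι → ℚ) :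
    {z : ι → Multiplicative ℤ | ∀ i, |((Multiplicative.toAdd (z i) : ℤ) : ℚ) - c i| < 1}.Finite := by
  have h1 : {z : ι → Multiplicative ℤ | ∀ i, |((Multiplicative.toAdd (z i) : ℤ) : ℚ) - c i| < 1} ⊆
      Set.pi Set.univ fun i => {z : Multiplicative ℤ | |((Multiplicative.toAdd z : ℤ) : ℚ) - c i| < 1} :=
    fun z hz i _ => hz i
  refine Set.Finite.subset (Set.Finite.pi fun i => ?_) h1
  have h2 : (Set.Icc (⌊c i⌋ - 1) (⌈c i⌉ + 1) : Set ℤ).Finite := Set.finite_Icc _ _
  refine Set.Finite.subset (h2.preimage (f := (Multiplicative.toAdd : Multiplicative ℤ → ℤ))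
    Multiplicative.toAdd.injective.injOn) ?_
  intro z hz
  have h3 := abs_lt.1 (show |((Multiplicative.toAdd z : ℤ) : ℚ) - c i| < 1 from hz)
  have h4 := Int.floor_le (c i)
  have h5 := Int.le_ceil (c i)
  constructor
  · have h6 : ((⌊c i⌋ - 1 : ℤ) : ℚ) ≤ (Multiplicative.toAdd z : ℤ) := by
      push_cast; linarith [h3.1]
    exact_mod_cast h6
  · have h6 : ((Multiplicative.toAdd z : ℤ) : ℚ) ≤ ((⌈c i⌉ + 1 : ℤ) : ℚ) := by
      push_cast; linarith [h3.2]
    exact_mod_cast h6

theorem abelian_section {B : Type} [CommGroup B] (L : Subgroup B) (hL : L.FG) :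
    ∃ σ : B ⧸ L → B, (∀ x, (σ x : B ⧸ L) = x) ∧
      ∀ b : B, (Set.range fun x : B ⧸ L => (σ x)⁻¹ * b * σ ((b : B ⧸ L)⁻¹ * x)).Finite := by
  have hfg : Group.FG L := (Group.fg_iff_subgroup_fg L).2 hL
  obtain ⟨ι, j, _, _, p, hp, e, ⟨E⟩⟩ := CommGroup.equiv_free_prod_prod_multiplicative_zmod L
  have hne : ∀ i, NeZero (p i ^ e i) := fun i => ⟨pow_ne_zero _ (hp i).ne_zero⟩
  -- the homomorphism to the rational vector space
  let ψ : Additive L →+ (j → ℚ) :=
    { toFun := fun l i => ((Multiplicative.toAdd ((E (Additive.toMul l)).1 i) : ℤ) : ℚ)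
      map_zero' := by
        funext i
        have h : E (Additive.toMul (0 : Additive L)) = 1 := map_one E
        rw [h]
        simp
      map_add' := by
        intro x y
        funext i
        have h : E (Additive.toMul (x + y)) = E (Additive.toMul x) * E (Additive.toMul y) :=
          map_mul E _ _
        rw [h]
        simp }
  obtain ⟨φ, hφ⟩ := (Module.Baer.of_divisible (j → ℚ)).extension_property_addMonoidHom
    (MonoidHom.toAdditive L.subtype) Subtype.val_injective ψ
  let φ' : B → j → ℚ := fun b => φ (Additive.ofMul b)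
  have hmul : ∀ a b i, φ' (a * b) i = φ' a i + φ' b i := fun a b i => by
    have h : φ (Additive.ofMul (a * b)) = φ (Additive.ofMul a) + φ (Additive.ofMul b) := map_add φ _ _
    exact congrFun h i
  have hinv : ∀ a i, φ' a⁻¹ i = - φ' a i := fun a i => by
    have h : φ (Additive.ofMul a⁻¹) = - φ (Additive.ofMul a) := map_neg φ _
    exact congrFun h i
  have hres : ∀ (l : L) i, φ' l i = ((Multiplicative.toAdd ((E l).1 i) : ℤ) : ℚ) := fun l i => by
    have h := DFunLike.congr_fun hφ (Additive.ofMul l)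
    exact congrFun h i
  have hex : ∀ x : B ⧸ L, ∃ b : B, (b : B ⧸ L) = x ∧ ∀ i, 0 ≤ φ' b i ∧ φ' b i < 1 := by
    intro x
    obtain ⟨b, rfl⟩ := QuotientGroup.mk_surjective x
    let l : L := E.symm (fun i => Multiplicative.ofAdd (-⌊φ' b i⌋), 1)
    refine ⟨b * l, ?_, fun i => ?_⟩
    · rw [QuotientGroup.mk_mul, (QuotientGroup.eq_one_iff (l : B)).2 l.2, mul_one]
    · have h1 : φ' (b * l) i = φ' b i - ⌊φ' b i⌋ := by
        rw [hmul, hres]
        have h2 : E l = (fun i => Multiplicative.ofAdd (-⌊φ' b i⌋), 1) := E.apply_symm_apply _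
        rw [h2]
        simp only [toAdd_ofAdd]
        push_cast
        ring
      rw [h1]
      exact ⟨sub_nonneg.2 (Int.floor_le _), by linarith [Int.lt_floor_add_one (φ' b i)]⟩
  choose σ hσ hσ' using hex
  refine ⟨σ, hσ, fun b => ?_⟩
  have hfin : {l : L | ∀ i, |φ' l i - φ' b i| < 1}.Finite := by
    have h1 : ({z : (j → Multiplicative ℤ) × ((i : ι) → Multiplicative (ZMod (p i ^ e i))) |
        ∀ i, |((Multiplicative.toAdd (z.1 i) : ℤ) : ℚ) - φ' b i| < 1}).Finite := by
      have h2 : Finite ((i : ι) → Multiplicative (ZMod (p i ^ e i))) := by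
        have : ∀ i, Finite (Multiplicative (ZMod (p i ^ e i))) := fun i =>
          inferInstanceAs (Finite (ZMod (p i ^ e i)))
        exact Pi.finite
      refine Set.Finite.subset ((finite_box (φ' b)).prod (Set.finite_univ
        (α := (i : ι) → Multiplicative (ZMod (p i ^ e i))))) ?_
      intro z hz
      exact ⟨hz, trivial⟩
    refine Set.Finite.subset (h1.preimage (f := E) E.injective.injOn) ?_
    intro l hl i
    rw [← hres]
    exact hl i
  refine Set.Finite.subset (hfin.image Subtype.val) ?_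
  rintro _ ⟨x, rfl⟩
  have hmem : (σ x)⁻¹ * b * σ ((b : B ⧸ L)⁻¹ * x) ∈ L := by
    rw [← QuotientGroup.eq_one_iff]
    rw [QuotientGroup.mk_mul, QuotientGroup.mk_mul, QuotientGroup.mk_inv, hσ, hσ]
    group
  refine ⟨⟨_, hmem⟩, fun i => ?_, rfl⟩
  show |φ' ((σ x)⁻¹ * b * σ ((b : B ⧸ L)⁻¹ * x)) i - φ' b i| < 1
  rw [hmul, hmul, hinv]
  have h1 := hσ' x i
  have h2 := hσ' ((b : B ⧸ L)⁻¹ * x) i
  rw [abs_lt]
  constructor <;> linarith [h1.1, h1.2, h2.1, h2.2]

/-! ### abelian groups -/

theorem pi_int_mem {C : ∀ (G : Type) [Group G], Prop} (hC : Closed C) {j : Type} [Finite j] :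
    C (j → Multiplicative ℤ) := by
  classical
  have : Fintype j := Fintype.ofFinite j
  have hn : ∀ n : ℕ, C (Fin n → Multiplicative ℤ) := by
    intro n
    induction n with
    | zero =>
      refine hC.of_injective _ (Multiplicative ℤ) 1 (fun a b _ => ?_) hC.int
      exact Subsingleton.elim a b
    | succ n ih =>
      let f : (Fin (n + 1) → Multiplicative ℤ) →* Multiplicative ℤ × (Fin n → Multiplicative ℤ) :=
        { toFun := fun g => (g 0, fun i => g i.succ)
          map_one' := rfl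
          map_mul' := fun _ _ => rfl }
      refine hC.of_injective _ _ f (fun a b hab => ?_) (hC.prod _ _ hC.int ih)
      obtain ⟨h1, h2⟩ := Prod.mk.inj hab
      funext i
      refine Fin.cases h1 (fun i => congrFun h2 i) i
  let eq := Fintype.equivFin j
  let f : (j → Multiplicative ℤ) →* (Fin (Fintype.card j) → Multiplicative ℤ) :=
    { toFun := fun g i => g (eq.symm i)
      map_one' := rfl
      map_mul' := fun _ _ => rfl }
  refine hC.of_injective _ _ f (fun a b hab => ?_) (hn _)
  funext i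
  have h := congrFun hab (eq i)
  have h' : a (eq.symm (eq i)) = b (eq.symm (eq i)) := h
  rwa [eq.symm_apply_apply] at h'

theorem comm_fg_mem {C : ∀ (G : Type) [Group G], Prop} (hC : Closed C) (L : Type) [CommGroup L]
    [Group.FG L] : C L := by
  obtain ⟨ι, j, _, _, p, hp, e, ⟨E⟩⟩ := CommGroup.equiv_free_prod_prod_multiplicative_zmod L
  have hne : ∀ i, NeZero (p i ^ e i) := fun i => ⟨pow_ne_zero _ (hp i).ne_zero⟩
  have h2 : Finite ((i : ι) → Multiplicative (ZMod (p i ^ e i))) := by
    have : ∀ i, Finite (Multiplicative (ZMod (p i ^ e i))) := fun i =>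
      inferInstanceAs (Finite (ZMod (p i ^ e i)))
    exact Pi.finite
  exact hC.of_injective _ _ E.toMonoidHom E.injective
    (hC.prod _ _ (pi_int_mem hC) (Pool.Agent.Y430.SS.of_finite hC _ h2))

theorem comm_mem {C : ∀ (G : Type) [Group G], Prop} (hC : Closed C) (L : Type) [CommGroup L] :
    C L := by
  classical
  refine Pool.Agent.Y430.SS.of_directed hC L (Finset L)
    (fun i j => ⟨i ∪ j, Finset.subset_union_left, Finset.subset_union_right⟩)
    (fun s => Subgroup.closure (s : Set L)) ?_ ?_ ?_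
  · intro s t hst
    exact Subgroup.closure_mono (by exact_mod_cast hst)
  · intro g
    exact ⟨{g}, Subgroup.subset_closure (by simp)⟩
  · intro s
    have : Group.FG (Subgroup.closure (s : Set L)) :=
      (Group.fg_iff_subgroup_fg _).2 ⟨s, rfl⟩
    exact comm_fg_mem hC (Subgroup.closure (s : Set L))

theorem abelian_section' {B : Type} [Group B] (hab : ∀ x y : B, x * y = y * x) (L : Subgroup B)
    [L.Normal] (hL : L.FG) :
    ∃ σ : B ⧸ L → B, (∀ x, (σ x : B ⧸ L) = x) ∧
      ∀ b : B, (Set.range fun x : B ⧸ L => (σ x)⁻¹ * b * σ ((b : B ⧸ L)⁻¹ * x)).Finite := by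
  let _ : CommGroup B := { (inferInstance : Group B) with mul_comm := hab }
  exact abelian_section L hL

theorem comm_mem' {C : ∀ (G : Type) [Group G], Prop} (hC : Closed C) (L : Type) [Group L]
    (hab : ∀ x y : L, x * y = y * x) : C L := by
  let _ : CommGroup L := { (inferInstance : Group L) with mul_comm := hab }
  exact comm_mem hC L

/-! ### amalgamated products -/

section am

variable {C : ∀ (G : Type) [Group G], Prop}

theorem am_fv (hC : ClosedE C) {G : Type} [Group G] (A B K : Subgroup G) (hamg : Amg A B K)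
    (hA : C A) [hn : (K.subgroupOf B).Normal] (hQ : C (B ⧸ K.subgroupOf B))
    {A' : Type} [Group A'] (hA' : C A') (j : K →* A') (hj : Function.Injective j)
    (σ : B ⧸ K.subgroupOf B → B) (hσ : ∀ x, (σ x : B ⧸ K.subgroupOf B) = x)
    (hσf : ∀ b : B, (Set.range fun x : B ⧸ K.subgroupOf B =>
      (σ x)⁻¹ * b * σ ((b : B ⧸ K.subgroupOf B)⁻¹ * x)).Finite)
    (α : B ⧸ K.subgroupOf B → (A →* A'))
    (hα : ∀ (x : B ⧸ K.subgroupOf B) (k k' : K), (k' : G) = (σ x : G)⁻¹ * k * (σ x : G) →
      α x ⟨k, hamg.le_left k.2⟩ = j k')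
    (hαf : ∀ a, (Set.range fun x => α x a).Finite) : C G := by
  let Q : Type := B ⧸ K.subgroupOf B
  let ρ : Q →* Equiv.Perm Q := MulAction.toPermHom Q Q
  have hρ : ∀ (q : Q) (x : Q), (ρ q)⁻¹ x = q⁻¹ * x := fun q x => rfl
  have hmem : ∀ (b : B) (x : Q), (((σ x)⁻¹ * b * σ ((b : Q)⁻¹ * x) : B) : G) ∈ K := by
    intro b x
    have h1 : (σ x)⁻¹ * b * σ ((b : Q)⁻¹ * x) ∈ K.subgroupOf B := by
      rw [← QuotientGroup.eq_one_iff, QuotientGroup.mk_mul, QuotientGroup.mk_mul,
        QuotientGroup.mk_inv, hσ, hσ]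
      group
    exact h1
  let κ : B → Q → K := fun b x => ⟨_, hmem b x⟩
  have hκ : ∀ b b' x, κ (b * b') x = κ b x * κ b' ((b : Q)⁻¹ * x) := by
    intro b b' x
    apply Subtype.ext
    have h1 : ((b * b' : B) : Q)⁻¹ * x = (b' : Q)⁻¹ * ((b : Q)⁻¹ * x) := by
      rw [QuotientGroup.mk_mul, mul_inv_rev, mul_assoc]
    show (((σ x)⁻¹ * (b * b') * σ (((b * b' : B) : Q)⁻¹ * x) : B) : G) =
      (((σ x)⁻¹ * b * σ ((b : Q)⁻¹ * x) : B) : G) *
        (((σ ((b : Q)⁻¹ * x))⁻¹ * b' * σ ((b' : Q)⁻¹ * ((b : Q)⁻¹ * x)) : B) : G)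
    rw [h1, ← Subgroup.coe_mul]
    congr 1
    group
  let fB : B →* FV ρ A' :=
    { toFun := fun b => ⟨⟨fun x => j (κ b x), (b : Q)⟩, by
        have h1 : (Set.range (κ b)).Finite := by
          refine Set.Finite.of_finite_image (f := fun k : K => (k : G)) ?_
            (Subtype.val_injective.injOn)
          refine Set.Finite.subset ((hσf b).image (fun b : B => (b : G))) ?_
          rintro _ ⟨_, ⟨x, rfl⟩, rfl⟩
          exact ⟨_, ⟨x, rfl⟩, rfl⟩
        refine Set.Finite.subset (h1.image j) ?_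
        rintro _ ⟨x, rfl⟩
        exact ⟨_, ⟨x, rfl⟩, rfl⟩⟩
      map_one' := by
        apply Subtype.ext
        refine SemidirectProduct.ext ?_ ?_
        · funext x
          show j (κ 1 x) = 1
          have h1 : κ 1 x = 1 := by
            have h2 := hκ 1 1 x
            rw [mul_one, QuotientGroup.mk_one, inv_one, one_mul] at h2
            exact (left_eq_mul.1 h2)
          rw [h1, map_one]
        · rfl
      map_mul' := by
        intro b b'
        apply Subtype.ext
        refine SemidirectProduct.ext ?_ ?_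
        · funext x
          show j (κ (b * b') x) = j (κ b x) * j (κ b' ((ρ (b : Q))⁻¹ x))
          rw [hκ, map_mul, hρ]
        · rfl }
  let fA : A →* FV ρ A' :=
    { toFun := fun a => ⟨SemidirectProduct.inl fun x => α x a, hαf a⟩
      map_one' := by
        apply Subtype.ext
        refine SemidirectProduct.ext ?_ rfl
        funext x
        exact map_one (α x)
      map_mul' := by
        intro a b
        apply Subtype.ext
        refine SemidirectProduct.ext ?_ ?_
        · funext x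
          show α x (a * b) = α x a * α ((ρ (1 : Q))⁻¹ x) b
          rw [hρ, inv_one, one_mul, map_mul]
        · exact (one_mul (1 : Q)).symm }
  have hq1 : ∀ (c : G) (hc : c ∈ K), ((⟨c, hamg.le_right hc⟩ : B) : Q) = 1 := fun c hc =>
    (QuotientGroup.eq_one_iff _).2 hc
  have hagree : ∀ (c : G) (hc : c ∈ K), fA ⟨c, hamg.le_left hc⟩ = fB ⟨c, hamg.le_right hc⟩ := by
    intro c hc
    apply Subtype.ext
    refine SemidirectProduct.ext ?_ ?_
    · funext x
      refine hα x ⟨c, hc⟩ (κ ⟨c, hamg.le_right hc⟩ x) ?_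
      show (((σ x)⁻¹ * ⟨c, hamg.le_right hc⟩ *
        σ (((⟨c, hamg.le_right hc⟩ : B) : Q)⁻¹ * x) : B) : G) = _
      rw [hq1 c hc, inv_one, one_mul]
      rfl
    · exact (hq1 c hc).symm
  have hBone : ∀ b : B, fB b = 1 → b = 1 := by
    intro b hb
    have h1 : (b : Q) = 1 := congrArg SemidirectProduct.right (congrArg Subtype.val hb)
    have h2 : j (κ b 1) = 1 := congrFun (congrArg SemidirectProduct.left (congrArg Subtype.val hb)) 1
    have h3 : κ b 1 = 1 := hj (by rw [h2, map_one])
    have h4 : (((σ 1)⁻¹ * b * σ ((b : Q)⁻¹ * 1) : B) : G) = 1 := congrArg Subtype.val h3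
    rw [h1, inv_one, one_mul] at h4
    have h5 : (σ (1 : Q))⁻¹ * b * σ 1 = 1 := Subtype.ext h4
    have h6 : b = σ (1 : Q) * ((σ (1 : Q))⁻¹ * b * σ 1) * (σ (1 : Q))⁻¹ := by group
    rw [h6, h5]
    group
  have hFV : C (FV ρ A') := fv_mem ρ hC hA' hQ
  have hB : C B := hC.base.of_injective _ _ fB ((injective_iff_map_eq_one fB).2 hBone) hFV
  obtain ⟨h, hhA, hhB⟩ := hamg.univ _ fA fB hagree
  refine Pool.Agent.R665.FJ.am hC A B K hA hB hFV hamg h fun k hk hk1 => ?_
  have h1 := hhB ⟨k, hamg.le_right hk⟩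
  rw [hk1] at h1
  exact congrArg Subtype.val (hBone _ h1.symm)

/-- amalgamated products over directed unions, `fin_step` -/
theorem fg_step {G : Type} [Group G] (A B K : Subgroup G) (hAmg : Amg A B K) (L : Subgroup G)
    (hL : L ≤ K) (hfin : L.FG)
    (H : ∀ (Q : Type) [Group Q] (A' B' L' : Subgroup Q), Amg A' B' L' → Nonempty (A ≃* A') →
      Nonempty (B ≃* B') → L'.FG → C Q) {Q : Type} [Group Q]
    (q : Coprod A B →* Q) (hq : Function.Surjective q)
    (hker : q.ker = Subgroup.normalClosure (relA A B L)) : C Q := by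
  have hrel : ∀ (a : A) (b : B), (a : G) = b → (a : G) ∈ L → q (Coprod.inl a) = q (Coprod.inr b) := by
    intro a b hab ha
    have h1 : Coprod.inl a * (Coprod.inr b)⁻¹ ∈ q.ker := by
      rw [hker]
      exact Subgroup.subset_normalClosure ⟨a, b, hab, ha, rfl⟩
    have h2 : q (Coprod.inl a * (Coprod.inr b)⁻¹) = 1 := h1
    rwa [map_mul, map_inv, mul_inv_eq_one] at h2
  obtain ⟨p, hp⟩ := desc q hq (toG A B) (by
    rw [hker]
    refine Subgroup.normalClosure_le_normal (relA_le A B _ L fun a b hab _ => ?_)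
    rw [toG_inl, toG_inr, hab])
  have hinjA : Function.Injective (q.comp Coprod.inl : A →* Q) := by
    intro a a' h
    have h1 := congrArg p h
    rw [MonoidHom.comp_apply, MonoidHom.comp_apply, hp, hp, toG_inl, toG_inl] at h1
    exact Subtype.ext h1
  have hinjB : Function.Injective (q.comp Coprod.inr : B →* Q) := by
    intro a a' h
    have h1 := congrArg p h
    rw [MonoidHom.comp_apply, MonoidHom.comp_apply, hp, hp, toG_inr, toG_inr] at h1
    exact Subtype.ext h1
  refine H Q (q.comp Coprod.inl : A →* Q).range (q.comp Coprod.inr : B →* Q).range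
    ((L.subgroupOf A).map (q.comp Coprod.inl : A →* Q)) ⟨?_, ?_, ?_, ?_⟩
    ⟨MonoidHom.ofInjective hinjA⟩ ⟨MonoidHom.ofInjective hinjB⟩ ?_
  · rintro _ ⟨a, _, rfl⟩
    exact ⟨a, rfl⟩
  · rintro _ ⟨a, ha, rfl⟩
    have hb : (a : G) ∈ B := hAmg.le_right (hL ha)
    exact ⟨⟨a, hb⟩, (hrel a ⟨a, hb⟩ rfl ha).symm⟩
  · rw [eq_top_iff]
    intro x _
    obtain ⟨y, rfl⟩ := hq x
    induction y using Coprod.induction_on with
    | inl a => exact Subgroup.mem_sup_left ⟨a, rfl⟩
    | inr b => exact Subgroup.mem_sup_right ⟨b, rfl⟩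
    | mul x y hx hy =>
      rw [map_mul]
      exact mul_mem (hx trivial) (hy trivial)
  · intro H _ f g hfg
    obtain ⟨h, hh⟩ := desc q hq (Coprod.lift
      (f.comp (q.comp Coprod.inl : A →* Q).rangeRestrict)
      (g.comp (q.comp Coprod.inr : B →* Q).rangeRestrict)) (by
      rw [hker]
      refine Subgroup.normalClosure_le_normal (relA_le A B _ L fun a b hab ha => ?_)
      rw [Coprod.lift_apply_inl, Coprod.lift_apply_inr]
      have h1 := hfg (q (Coprod.inl a)) ⟨a, ha, rfl⟩
      refine Eq.trans h1 ?_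
      show g _ = g _
      congr 1
      exact Subtype.ext (hrel a b hab ha))
    refine ⟨h, ?_, ?_⟩
    · rintro ⟨_, a, rfl⟩
      have h1 := hh (Coprod.inl a)
      rw [Coprod.lift_apply_inl] at h1
      exact h1
    · rintro ⟨_, a, rfl⟩
      have h1 := hh (Coprod.inr a)
      rw [Coprod.lift_apply_inr] at h1
      exact h1
  · have h1 : Group.FG L := (Group.fg_iff_subgroup_fg L).2 hfin
    let E := (Subgroup.subgroupOfEquivOfLe (hL.trans hAmg.le_left)).symm.trans
      ((L.subgroupOf A).equivMapOfInjective (q.comp Coprod.inl : A →* Q) hinjA)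
    have h2 : Group.FG ((L.subgroupOf A).map (q.comp Coprod.inl : A →* Q)) :=
      Group.fg_of_surjective (f := E.toMonoidHom) E.surjective
    exact (Group.fg_iff_subgroup_fg _).1 h2

/-- **amalgamated products over directed unions of finitely generated subgroups** -/
theorem amg_dir (hC : Closed C) {G : Type} [Group G] (A B K : Subgroup G) (hAmg : Amg A B K)
    (H : ∀ (Q : Type) [Group Q] (A' B' L' : Subgroup Q), Amg A' B' L' → Nonempty (A ≃* A') →
      Nonempty (B ≃* B') → L'.FG → C Q) : C G := by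
  classical
  have h1 : C (Coprod A B ⧸ Subgroup.normalClosure
      (⋃ S : Finset K, relA A B (Subgroup.closure (Subtype.val '' (S : Set K))))) := by
    refine colim_quot hC (fun i j => ⟨i ∪ j, Finset.subset_union_left, Finset.subset_union_right⟩)
      _ (fun i j hij => ?_) fun S => ?_
    · rintro _ ⟨a, b, hab, ha, rfl⟩
      exact ⟨a, b, hab, Subgroup.closure_mono (Set.image_mono (by exact_mod_cast hij)) ha, rfl⟩
    · have hE : Subtype.val '' (S : Set K) ⊆ (K : Set G) := by
        rintro _ ⟨x, _, rfl⟩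
        exact x.2
      exact fg_step A B K hAmg _ ((Subgroup.closure_le K).2 hE)
        ⟨S.image Subtype.val, by rw [Finset.coe_image]⟩ H (QuotientGroup.mk' _)
        (QuotientGroup.mk'_surjective _) (QuotientGroup.ker_mk' _)
  -- the map from `G`
  obtain ⟨R, hR⟩ : ∃ R : Set (Coprod A B), R = ⋃ S : Finset K,
    relA A B (Subgroup.closure (Subtype.val '' (S : Set K))) := ⟨_, rfl⟩
  rw [← hR] at h1
  obtain ⟨Q, _, q, hq, hker, hCQ⟩ : ∃ (Q : Type) (_ : Group Q) (q : Coprod A B →* Q),
      Function.Surjective q ∧ q.ker = Subgroup.normalClosure R ∧ C Q :=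
    ⟨_, inferInstance, QuotientGroup.mk' _, QuotientGroup.mk'_surjective _,
      QuotientGroup.ker_mk' _, h1⟩
  obtain ⟨h, hh1, hh2⟩ := hAmg.univ _ (q.comp Coprod.inl) (q.comp Coprod.inr) (by
    intro c hc
    have h2 : Coprod.inl ⟨c, hAmg.le_left hc⟩ * (Coprod.inr ⟨c, hAmg.le_right hc⟩)⁻¹ ∈ q.ker := by
      rw [hker]
      refine Subgroup.subset_normalClosure ?_
      rw [hR]
      refine Set.mem_iUnion.2 ⟨{⟨c, hc⟩}, _, _, rfl, Subgroup.subset_closure ?_, rfl⟩
      exact ⟨⟨c, hc⟩, by simp, rfl⟩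
    have h3 : q (Coprod.inl ⟨c, hAmg.le_left hc⟩ * (Coprod.inr ⟨c, hAmg.le_right hc⟩)⁻¹) = 1 := h2
    rwa [map_mul, map_inv, mul_inv_eq_one] at h3)
  obtain ⟨f, hf⟩ := desc q hq (toG A B) (by
    rw [hker, hR]
    refine Subgroup.normalClosure_le_normal (Set.iUnion_subset fun _ =>
      relA_le A B _ _ fun a b hab _ => ?_)
    rw [toG_inl, toG_inr, hab])
  have hinj : Function.Injective h := by
    have h4 : (⊤ : Subgroup G) ≤ MonoidHom.eqLocus (f.comp h) (MonoidHom.id G) := by
      rw [← hAmg.gen]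
      refine sup_le ?_ ?_
      · intro a ha
        show f (h a) = a
        rw [hh1 ⟨a, ha⟩, MonoidHom.comp_apply, hf, toG_inl]
      · intro a ha
        show f (h a) = a
        rw [hh2 ⟨a, ha⟩, MonoidHom.comp_apply, hf, toG_inr]
    intro x y hxy
    have h5 : f (h x) = f (h y) := by rw [hxy]
    have h6 : ∀ z, f (h z) = z := fun z => h4 (Subgroup.mem_top z)
    rwa [h6, h6] at h5
  exact hC.of_injective _ _ h hinj hCQ

/-- amalgamated products with an abelian group -/
theorem am_comm (hC : ClosedE C) {G : Type} [Group G] (A B K : Subgroup G) (hamg : Amg A B K)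
    (hA : C A) (hB : ∀ x y : B, x * y = y * x) : C G := by
  refine amg_dir hC.base A B K hamg fun Q _ A' B' L' hamg' ⟨eA⟩ ⟨eB⟩ hfg => ?_
  have hA' : C A' := hC.base.of_injective _ _ eA.symm.toMonoidHom eA.symm.injective hA
  have hB' : ∀ x y : B', x * y = y * x := by
    intro x y
    apply eB.symm.injective
    rw [map_mul, map_mul, hB]
  have hn : (L'.subgroupOf B').Normal := ⟨fun n hn g => by
    rw [hB' g n, mul_inv_cancel_right]
    exact hn⟩
  have hfg' : (L'.subgroupOf B').FG := by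
    rw [← Group.fg_iff_subgroup_fg]
    have h1 : Group.FG L' := (Group.fg_iff_subgroup_fg L').2 hfg
    exact Group.fg_of_surjective (f := (Subgroup.subgroupOfEquivOfLe hamg'.le_right).symm.toMonoidHom)
      (Subgroup.subgroupOfEquivOfLe hamg'.le_right).symm.surjective
  obtain ⟨σ, hσ, hσf⟩ := abelian_section' hB' (L'.subgroupOf B') hfg'
  have hQ : C (B' ⧸ L'.subgroupOf B') := by
    refine comm_mem' hC.base _ fun x y => ?_
    obtain ⟨x, rfl⟩ := QuotientGroup.mk_surjective x
    obtain ⟨y, rfl⟩ := QuotientGroup.mk_surjective y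
    rw [← QuotientGroup.mk_mul, ← QuotientGroup.mk_mul, hB']
  refine am_fv hC A' B' L' hamg' hA' hQ hA' (Subgroup.inclusion hamg'.le_left)
    (Subgroup.inclusion_injective _) σ hσ hσf (fun _ => MonoidHom.id A') ?_ ?_
  · intro x k k' hk
    apply Subtype.ext
    show (k : Q) = (k' : Q)
    rw [hk]
    have h1 := hB' (σ x)⁻¹ ⟨k, hamg'.le_right k.2⟩
    have h2 : ((σ x : Q))⁻¹ * (k : Q) = (k : Q) * (σ x : Q)⁻¹ := congrArg Subtype.val h1
    rw [h2, inv_mul_cancel_right]
  · intro a
    refine Set.Finite.subset (Set.finite_singleton a) ?_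
    rintro _ ⟨x, rfl⟩
    rfl

end am

end Pool.Agent.R630.FJ
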