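import Pool.Agent.R630.FJ.Inn
import Pool.Agent.R669.Bw.App

/-!
# Groups of finite-valued functions, extended by a group of permutations; directed unions of sequences
-/

set_option autoImplicit false

namespace Pool.Agent.R630.FJ

open Pool.Agent.Y110.FJ
open Pool.Agent.Y462.SS (Closed)

section fv

variable {Ω B Q : Type} [Group B] [Group Q] (ρ : Q →* Equiv.Perm Ω)

/-- the action of `Q` on the functions `Ω → B` -/
def shAut (B : Type) [Group B] : Q →* MulAut (Ω → B) where
  toFun q :=
    { toFun := fun f x => f ((ρ q)⁻¹ x)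
      invFun := fun f x => f (ρ q x)
      left_inv := fun f => by
        funext x
        simp
      right_inv := fun f => by
        funext x
        simp
      map_mul' := fun f g => rfl }
  map_one' := by
    ext f x
    simp
  map_mul' q r := by
    ext f x
    simp [mul_inv_rev]

theorem shAut_apply (q : Q) (f : Ω → B) (x : Ω) : shAut ρ B q f x = f ((ρ q)⁻¹ x) := rfl

/-- the group of all functions extended by `Q` -/
abbrev FW (B : Type) [Group B] : Type := (Ω → B) ⋊[shAut ρ B] Q

/-- the finite-valued functions extended by `Q` -/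
def FV (B : Type) [Group B] : Subgroup (FW ρ B) where
  carrier := {x | (Set.range x.left).Finite}
  one_mem' := Set.Finite.subset (Set.finite_singleton (1 : B)) (by
    rintro _ ⟨x, rfl⟩
    rfl)
  mul_mem' := by
    intro x y hx hy
    refine Set.Finite.subset (Set.Finite.image2 (fun a b : B => a * b) hx hy) ?_
    rintro _ ⟨ω, rfl⟩
    exact ⟨x.left ω, ⟨ω, rfl⟩, y.left ((ρ x.right)⁻¹ ω), ⟨_, rfl⟩, rfl⟩
  inv_mem' := by
    intro x hx
    refine Set.Finite.subset (Set.Finite.image (fun b : B => b⁻¹) hx) ?_
    rintro _ ⟨ω, rfl⟩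
    exact ⟨x.left ((ρ x.right⁻¹)⁻¹ ω), ⟨_, rfl⟩, rfl⟩

theorem fw_conj (g x : FW ρ B) (hx : x.right = 1) (ω : Ω) :
    (g * x * g⁻¹).left (ρ g.right ω) =
      g.left (ρ g.right ω) * x.left ω * (g.left (ρ g.right ω))⁻¹ := by
  rw [SemidirectProduct.mul_left, SemidirectProduct.mul_left, SemidirectProduct.mul_right, hx,
    SemidirectProduct.inv_left, mul_one]
  show g.left (ρ g.right ω) * (shAut ρ B g.right x.left) (ρ g.right ω) *
    (shAut ρ B g.right (shAut ρ B g.right⁻¹ g.left⁻¹)) (ρ g.right ω) = _
  have h1 : (ρ g.right)⁻¹ (ρ g.right ω) = ω := (ρ g.right).symm_apply_apply ω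
  rw [shAut_apply, shAut_apply, shAut_apply, h1, map_inv, inv_inv]
  rfl

theorem fv_mem {C : ∀ (G : Type) [Group G], Prop} (hC : ClosedE C) (hB : C B) (hQ : C Q) :
    C (FV ρ B) := by
  let pr : FV ρ B →* Q := (SemidirectProduct.rightHom).comp (FV ρ B).subtype
  have hpr : ∀ x : FV ρ B, pr x = (x : FW ρ B).right := fun x => rfl
  have hQ' : C (FV ρ B ⧸ pr.ker) :=
    hC.base.of_injective _ _ ((pr.range.subtype).comp (QuotientGroup.quotientKerEquivRange pr).toMonoidHom)
      (Subtype.val_injective.comp (MulEquiv.injective _)) hQ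
  let e : pr.ker →* (Ω → B) :=
    { toFun := fun x => (x : FW ρ B).left
      map_one' := rfl
      map_mul' := by
        intro x y
        have h1 : ((x : FV ρ B) : FW ρ B).right = 1 := x.2
        show ((x : FW ρ B) * (y : FW ρ B)).left = _
        rw [SemidirectProduct.mul_left, h1, map_one]
        rfl }
  refine Pool.Agent.R669.Bw.main crit C hC (FV ρ B) Ω B hB pr.ker hQ' e ?_ ?_ ?_
  · intro x y hxy
    apply Subtype.ext
    apply Subtype.ext
    refine SemidirectProduct.ext hxy ?_
    have h1 : ((x : FV ρ B) : FW ρ B).right = 1 := x.2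
    have h2 : ((y : FV ρ B) : FW ρ B).right = 1 := y.2
    rw [h1, h2]
  · intro x
    exact (x : FV ρ B).2
  · intro g
    refine ⟨ρ (g : FW ρ B).right, fun ω => (g : FW ρ B).left (ρ (g : FW ρ B).right ω), ?_, ?_⟩
    · refine Set.Finite.subset g.2 ?_
      rintro _ ⟨ω, rfl⟩
      exact ⟨_, rfl⟩
    · intro x hx ω
      exact fw_conj ρ (g : FW ρ B) (x : FW ρ B) hx ω

end fv

/-! ### directed unions of sequences -/

section tower

variable {T : ℕ → Type} [∀ n, Group (T n)] (f : ∀ n, T n →* T (n + 1))

/-- the composite maps of a sequence of homomorphisms -/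
def up {i j : ℕ} (h : i ≤ j) : T i →* T j where
  toFun x := Nat.leRecOn h (fun {k} => f k) x
  map_one' := by
    induction j, h using Nat.le_induction with
    | base => rw [Nat.leRecOn_self]
    | succ k hk ih => rw [Nat.leRecOn_succ hk, ih, map_one]
  map_mul' x y := by
    induction j, h using Nat.le_induction with
    | base => rw [Nat.leRecOn_self, Nat.leRecOn_self, Nat.leRecOn_self]
    | succ k hk ih => rw [Nat.leRecOn_succ hk, Nat.leRecOn_succ hk, Nat.leRecOn_succ hk, ih, map_mul]

theorem up_self {i : ℕ} (h : i ≤ i) (x : T i) : up f h x = x := Nat.leRecOn_self x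

theorem up_succ {i j : ℕ} (h : i ≤ j) (h' : i ≤ j + 1) (x : T i) : up f h' x = f j (up f h x) :=
  Nat.leRecOn_succ h x

theorem up_up {i j k : ℕ} (h : i ≤ j) (h' : j ≤ k) (x : T i) :
    up f h' (up f h x) = up f (h.trans h') x := (Nat.leRecOn_trans h h' x).symm

theorem up_injective (hf : ∀ n, Function.Injective (f n)) {i j : ℕ} (h : i ≤ j) :
    Function.Injective (up f h) := by
  induction j, h using Nat.le_induction with
  | base => intro x y hxy; rwa [up_self, up_self] at hxy
  | succ k hk ih =>
    intro x y hxy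
    rw [up_succ f hk, up_succ f hk] at hxy
    exact ih (hf k hxy)

instance tower_sys : DirectedSystem T (fun i j (h : i ≤ j) => ⇑(up f h)) where
  map_self := fun _ x => up_self f _ x
  map_map := fun _ _ _ hij hjk x => up_up f hij hjk x

/-- the union of a sequence of groups -/
abbrev Lim : Type := DirectLimit T (fun i j (h : i ≤ j) => up f h)

/-- the map of `T n` to the union -/
def toLim (n : ℕ) : T n →* Lim f where
  toFun x := ⟦⟨n, x⟩⟧
  map_one' := (DirectLimit.one_def n).symm
  map_mul' x y := (DirectLimit.mul_def n x y).symm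

theorem toLim_up {i j : ℕ} (h : i ≤ j) (x : T i) : toLim f j (up f h x) = toLim f i x := by
  refine Quotient.sound ⟨j, le_refl j, h, ?_⟩
  exact up_self f _ _

theorem toLim_succ (n : ℕ) (x : T n) : toLim f (n + 1) (f n x) = toLim f n x := by
  have h := toLim_up f (Nat.le_succ n) x
  rwa [up_succ f (le_refl n), up_self] at h

theorem toLim_surj (y : Lim f) : ∃ (n : ℕ) (x : T n), toLim f n x = y := by
  obtain ⟨⟨n, x⟩, rfl⟩ := Quotient.exists_rep y
  exact ⟨n, x, rfl⟩

theorem toLim_injective (hf : ∀ n, Function.Injective (f n)) (n : ℕ) :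
    Function.Injective (toLim f n) := by
  intro x y hxy
  obtain ⟨k, h1, h2, h⟩ := Quotient.exact hxy
  exact up_injective f hf h1 h

theorem lim_mem {C : ∀ (G : Type) [Group G], Prop} (hC : Closed C)
    (hf : ∀ n, Function.Injective (f n)) (h : ∀ n, C (T n)) : C (Lim f) := by
  refine hC.colim ℕ (fun i j => ⟨max i j, le_max_left _ _, le_max_right _ _⟩) T
    (fun i j h => up f h) (Lim f) (toLim f) ?_ ?_ ?_ ?_ ?_ h
  · intro i h x
    exact up_self f h x
  · intro i j k h h' x
    exact up_up f h h' x
  · intro i j h x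
    exact toLim_up f h x
  · intro y
    exact toLim_surj f y
  · intro i x hx
    exact ⟨i, le_refl i, by rw [up_self]; exact toLim_injective f hf i (by rw [hx, map_one])⟩

end tower

section iterate

variable (P : ∀ (_ : ℕ) (A B : Type) [Group A] [Group B], (A →* B) → Prop)
  (step : ∀ (n : ℕ) (A : Type) [Group A], ∃ (B : Type) (_ : Group B) (f : A →* B),
    Function.Injective f ∧ P n A B f)

/-- the sequence of groups -/
noncomputable def sq (G : Type) [hG : Group G] : ℕ → (Σ A : Type, Group A)
  | 0 => ⟨G, hG⟩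
  | n + 1 => ⟨(@step n (sq G n).1 (sq G n).2).choose,
      (@step n (sq G n).1 (sq G n).2).choose_spec.choose⟩

noncomputable instance sqG (G : Type) [Group G] (n : ℕ) : Group (sq P step G n).1 :=
  (sq P step G n).2

include step in
/-- iterating an extension of groups -/
theorem exists_tower (G : Type) [hG : Group G] :
    ∃ (T : ℕ → Type) (_ : ∀ n, Group (T n)) (f : ∀ n, T n →* T (n + 1)) (_ : G ≃* T 0),
      ∀ n, Function.Injective (f n) ∧ P n (T n) (T (n + 1)) (f n) := by
  have hst : ∀ n, ∃ f : (sq P step G n).1 →* (sq P step G (n + 1)).1,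
      Function.Injective f ∧ P n (sq P step G n).1 (sq P step G (n + 1)).1 f :=
    fun n => (@step n (sq P step G n).1 (sq P step G n).2).choose_spec.choose_spec
  choose f hf using hst
  exact ⟨fun n => (sq P step G n).1, fun n => sqG P step G n, f, MulEquiv.refl G, hf⟩

end iterate

end Pool.Agent.R630.FJ
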