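import Pool.Agent.R630.FJ.Fv

/-!
# Mitoses and roots in groups of finite-valued functions
-/

set_option autoImplicit false

namespace Pool.Agent.R630.FJ

open Pool.Agent.Y110.FJ
open Pool.Agent.Y462.SS (Closed)

/-- torsion-free -/
def TF (G : Type) [Group G] : Prop := ∀ g : G, ∀ k : ℕ, 0 < k → g ^ k = 1 → g = 1

theorem TF.of_injective {G H : Type} [Group G] [Group H] (f : G →* H) (hf : Function.Injective f)
    (h : TF H) : TF G := fun g k hk hg => hf (by
  rw [map_one]
  exact h (f g) k hk (by rw [← map_pow, hg, map_one]))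

theorem TF.free (α : Type) : TF (FreeGroup α) := by
  intro g k hk hg
  have h : Function.Injective fun x : FreeGroup α => x ^ k :=
    IsMulTorsionFree.pow_left_injective (hk.ne')
  exact h (by simpa using hg)

section fw

variable {Ω B Q : Type} [Group B] [Group Q] (ρ : Q →* Equiv.Perm Ω)

theorem fw_tf (hB : TF B) (hQ : TF Q) : TF (FW ρ B) := by
  intro g k hk hg
  have h1 : g.right = 1 := hQ _ k hk (by
    have h2 := congrArg SemidirectProduct.rightHom hg
    rwa [map_pow, map_one] at h2)
  have h2 : g = SemidirectProduct.inl g.left := by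
    refine SemidirectProduct.ext ?_ ?_
    · rw [SemidirectProduct.left_inl]
    · rw [SemidirectProduct.right_inl, h1]
  rw [h2, ← map_pow] at hg
  have h3 : g.left ^ k = 1 := SemidirectProduct.inl_injective (by rw [hg, map_one])
  have h4 : g.left = 1 := by
    funext ω
    exact hB _ k hk (congrFun h3 ω)
  rw [h2, h4, map_one]

theorem countable_closure {G : Type} [Group G] (s : Set G) (hs : s.Countable) :
    Countable (Subgroup.closure s) := by
  have : Countable s := hs
  rw [FreeGroup.closure_eq_range]
  exact Set.countable_range (FreeGroup.lift (Subtype.val : s → G))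

end fw

/-! ### the mitosis -/

section mit

variable (B : Type) [Group B]

/-- the set on which the functions are defined -/
abbrev Om : Type := ℕ ⊕ (ℕ ⊕ ℕ)

/-- exchanges the first two copies -/
def sP : Equiv.Perm Om := (Equiv.sumAssoc ℕ ℕ ℕ).symm.trans
  ((Equiv.sumCongr (Equiv.sumComm ℕ ℕ) (Equiv.refl ℕ)).trans (Equiv.sumAssoc ℕ ℕ ℕ))

/-- maps the first copy onto the union of the first two copies -/
def dP : Equiv.Perm Om :=
  (Equiv.sumCongr Equiv.natSumNatEquivNat.symm Equiv.natSumNatEquivNat).trans (Equiv.sumAssoc ℕ ℕ ℕ)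

/-- the action of the free group -/
def rhoM : FreeGroup Bool →* Equiv.Perm Om := FreeGroup.lift fun b => bif b then sP else dP

/-- the constant function on the first copy -/
def chi (g : B) : Om → B
  | Sum.inl _ => g
  | Sum.inr _ => 1

/-- the embedding -/
def iotaM : B →* FV rhoM B where
  toFun g := ⟨SemidirectProduct.inl (chi B g), by
    refine Set.Finite.subset (Set.toFinite ({g, 1} : Set B)) ?_
    rintro _ ⟨x, rfl⟩
    rcases x with x | x
    · exact Or.inl rfl
    · exact Or.inr rfl⟩
  map_one' := by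
    apply Subtype.ext
    show SemidirectProduct.inl (chi B 1) = 1
    have h : chi B 1 = 1 := by
      funext x
      rcases x with x | x <;> rfl
    rw [h, map_one]
  map_mul' g h := by
    apply Subtype.ext
    show SemidirectProduct.inl (chi B (g * h)) = SemidirectProduct.inl (chi B g) *
      SemidirectProduct.inl (chi B h)
    have h : chi B (g * h) = chi B g * chi B h := by
      funext x
      rcases x with x | x
      · rfl
      · exact (one_mul (1 : B)).symm
    rw [h, map_mul]

/-- elements of the free group -/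
def qM (q : FreeGroup Bool) : FV rhoM B := ⟨SemidirectProduct.inr q, by
  refine Set.Finite.subset (Set.finite_singleton (1 : B)) ?_
  rintro _ ⟨x, rfl⟩
  rfl⟩

theorem qM_conj (q : FreeGroup Bool) (g : B) :
    ((qM B q * iotaM B g * (qM B q)⁻¹ : FV rhoM B) : FW rhoM B) =
      SemidirectProduct.inl (shAut rhoM B q (chi B g)) := by
  rw [SemidirectProduct.inl_aut, map_inv]
  rfl

theorem iotaM_injective : Function.Injective (iotaM B) := by
  intro g h hgh
  have h1 : SemidirectProduct.inl (chi B g) = (SemidirectProduct.inl (chi B h) : FW rhoM B) :=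
    congrArg Subtype.val hgh
  exact congrFun (SemidirectProduct.inl_injective h1) (Sum.inl 0)

theorem rho_true : rhoM (FreeGroup.of true) = sP := by
  rw [rhoM, FreeGroup.lift_apply_of]; rfl

theorem rho_false : rhoM (FreeGroup.of false) = dP := by
  rw [rhoM, FreeGroup.lift_apply_of]; rfl

theorem comm_M (g h : B) : Commute (iotaM B g)
    (qM B (FreeGroup.of true) * iotaM B h * (qM B (FreeGroup.of true))⁻¹) := by
  apply Subtype.ext
  have h1 := qM_conj B (FreeGroup.of true) h
  show SemidirectProduct.inl (chi B g) *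
      ((qM B (FreeGroup.of true) * iotaM B h * (qM B (FreeGroup.of true))⁻¹ : FV rhoM B) : FW rhoM B) =
    ((qM B (FreeGroup.of true) * iotaM B h * (qM B (FreeGroup.of true))⁻¹ : FV rhoM B) : FW rhoM B) *
      SemidirectProduct.inl (chi B g)
  rw [h1, ← map_mul, ← map_mul]
  congr 1
  funext x
  rw [Pi.mul_apply, Pi.mul_apply, shAut_apply, rho_true]
  rcases x with x | x | x
  · show g * 1 = 1 * g
    rw [mul_one, one_mul]
  · show 1 * h = h * 1
    rw [mul_one, one_mul]
  · rfl

theorem mit_M (g : B) :
    qM B (FreeGroup.of false) * iotaM B g * (qM B (FreeGroup.of false))⁻¹ =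
      iotaM B g * (qM B (FreeGroup.of true) * iotaM B g * (qM B (FreeGroup.of true))⁻¹) := by
  apply Subtype.ext
  rw [Subgroup.coe_mul (FV rhoM B) (iotaM B g), qM_conj, qM_conj]
  show _ = SemidirectProduct.inl (chi B g) * _
  rw [← map_mul]
  congr 1
  funext x
  rw [Pi.mul_apply, shAut_apply, shAut_apply, rho_true, rho_false]
  rcases x with x | x | x
  · show g = g * 1
    rw [mul_one]
  · show g = 1 * g
    rw [one_mul]
  · show 1 = 1 * 1
    rw [mul_one]

/-- the group generated by `B` and the two letters -/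
def MG : Subgroup (FV rhoM B) := Subgroup.closure
  (Set.range (iotaM B) ∪ {qM B (FreeGroup.of true), qM B (FreeGroup.of false)})

/-- the properties of one step -/
def StepP (A B : Type) [Group A] [Group B] (f : A →* B) : Prop :=
  (∃ s d : B, (∀ g h, Commute (f g) (s * f h * s⁻¹)) ∧ ∀ g, d * f g * d⁻¹ = f g * (s * f g * s⁻¹)) ∧
  (Countable A → Countable B) ∧
  ∀ C : ∀ (G : Type) [Group G], Prop, ClosedE C → C A → C B

theorem mit_step (A : Type) [Group A] : ∃ (B : Type) (_ : Group B) (f : A →* B),
    Function.Injective f ∧ StepP A B f ∧ (TF A → TF B) := by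
  have h1 : ∀ g, iotaM A g ∈ MG A := fun g => Subgroup.subset_closure (Or.inl ⟨g, rfl⟩)
  refine ⟨MG A, inferInstance, (iotaM A).codRestrict (MG A) h1, ?_, ⟨?_, ?_, ?_⟩, ?_⟩
  · intro g h hgh
    exact iotaM_injective A (congrArg Subtype.val hgh)
  · refine ⟨⟨qM A (FreeGroup.of true), Subgroup.subset_closure (Or.inr (Or.inl rfl))⟩,
      ⟨qM A (FreeGroup.of false), Subgroup.subset_closure (Or.inr (Or.inr rfl))⟩, ?_, ?_⟩
    · intro g h
      exact Subtype.ext (comm_M A g h)
    · intro g
      exact Subtype.ext (mit_M A g)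
  · intro h
    refine countable_closure _ (Set.Countable.union (Set.countable_range _) ?_)
    exact Set.Finite.countable (Set.toFinite _)
  · intro C hC hA
    exact hC.base.of_injective _ _ (MG A).subtype Subtype.val_injective
      (fv_mem rhoM hC hA (Pool.Agent.Y179.SS.t_free C hC.base Bool))
  · intro hA
    exact TF.of_injective ((FV rhoM A).subtype.comp (MG A).subtype)
      (Subtype.val_injective.comp Subtype.val_injective) (fw_tf rhoM hA (TF.free Bool))

end mit

/-! ### roots -/

section root

variable (n : ℕ) (B : Type) [Group B]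

/-- the cyclic shift -/
def shP : Equiv.Perm (Fin (n + 1)) := Equiv.addRight 1

theorem shP_pow (k : ℕ) (y : Fin (n + 1)) : (((shP n ^ k) y : Fin (n + 1)) : ℕ) =
    ((y : ℕ) + k) % (n + 1) := by
  induction k with
  | zero =>
    rw [pow_zero, add_zero, Nat.mod_eq_of_lt y.2]
    rfl
  | succ k ih =>
    rw [pow_succ', Equiv.Perm.mul_apply]
    show (((shP n ^ k) y + 1 : Fin (n + 1)) : ℕ) = _
    rw [Fin.val_add, ih, Fin.val_one', ← Nat.add_mod, add_assoc]

theorem shP_inv (y : Fin (n + 1)) : (shP n)⁻¹ y = y - 1 := by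
  show y + -1 = y - 1
  rw [sub_eq_add_neg]

/-- the partial function -/
def Fk (g : B) (k : ℕ) : Fin (n + 1) → B := fun y => if (y : ℕ) < k then g else 1

/-- the root -/
def rt (g : B) : FW (MonoidHom.id (Equiv.Perm (Fin (n + 1)))) B := ⟨Fk n B g 1, shP n⟩

theorem rt_pow (g : B) (k : ℕ) (hk : k ≤ n + 1) : rt n B g ^ k = ⟨Fk n B g k, shP n ^ k⟩ := by
  induction k with
  | zero =>
    rw [pow_zero, pow_zero]
    refine SemidirectProduct.ext ?_ rfl
    funext y
    simp [Fk]
  | succ k ih =>
    rw [pow_succ', ih (by omega)]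
    refine SemidirectProduct.ext ?_ (pow_succ' _ _).symm
    rw [SemidirectProduct.mul_left]
    funext y
    rw [Pi.mul_apply, shAut_apply]
    show Fk n B g 1 y * Fk n B g k ((shP n)⁻¹ y) = Fk n B g (k + 1) y
    rw [shP_inv]
    have h1 : ((y - 1 : Fin (n + 1)) : ℕ) = if y = 0 then n else (y : ℕ) - 1 := Fin.coe_sub_one y
    show (if (y : ℕ) < 1 then g else 1) * (if ((y - 1 : Fin (n + 1)) : ℕ) < k then g else 1) =
      if (y : ℕ) < k + 1 then g else 1
    rw [h1]
    by_cases hy : y = 0
    · have h2 : (y : ℕ) = 0 := by rw [hy]; rfl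
      rw [if_pos hy, h2, if_pos (by omega), if_neg (by omega), if_pos (by omega), mul_one]
    · have h2 : (y : ℕ) ≠ 0 := fun h => hy (Fin.ext h)
      rw [if_neg hy, if_neg (by omega), one_mul]
      by_cases h3 : (y : ℕ) < k + 1
      · rw [if_pos (by omega), if_pos h3]
      · rw [if_neg (by omega), if_neg h3]

/-- the diagonal embedding -/
def diagR : B →* FW (MonoidHom.id (Equiv.Perm (Fin (n + 1)))) B :=
  SemidirectProduct.inl.comp
    { toFun := fun g _ => g
      map_one' := rfl
      map_mul' := fun _ _ => rfl }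

theorem rt_pow_last (g : B) : rt n B g ^ (n + 1) = diagR n B g := by
  rw [rt_pow n B g (n + 1) (le_refl _)]
  refine SemidirectProduct.ext ?_ ?_
  · funext y
    exact if_pos y.2
  · ext y
    show (((shP n ^ (n + 1)) y : Fin (n + 1)) : ℕ) = (y : ℕ)
    rw [shP_pow, Nat.add_mod_right, Nat.mod_eq_of_lt y.2]

theorem fw_fin_mem {C : ∀ (G : Type) [Group G], Prop} (hC : ClosedE C) {B : Type} [Group B] (hB : C B) :
    C (FW (MonoidHom.id (Equiv.Perm (Fin (n + 1)))) B) := by
  have hQ : C (Equiv.Perm (Fin (n + 1))) := Pool.Agent.Y430.SS.of_finite hC.base _ inferInstance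
  refine hC.base.of_injective _ _ ((MonoidHom.id _).codRestrict (FV _ B) (fun x => Set.toFinite _))
    (fun x y h => congrArg Subtype.val h) (fv_mem _ hC hB hQ)

end root

end Pool.Agent.R630.FJ
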