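import Pool.Agent.R630.FJ.Mit

/-!
# Embeddings into 2-generated groups
-/

set_option autoImplicit false

namespace Pool.Agent.R630.FJ

open Pool.Agent.Y110.FJ
open Pool.Agent.Y462.SS (Closed)

/-- translations of `ℤ` -/
def rhoZ : Multiplicative ℤ →* Equiv.Perm ℤ where
  toFun m := Equiv.addRight (Multiplicative.toAdd m)
  map_one' := by
    ext p
    simp
  map_mul' a b := by
    ext p
    simp [add_comm, add_left_comm]

theorem rhoZ_apply (m : Multiplicative ℤ) (p : ℤ) : rhoZ m p = p + Multiplicative.toAdd m := rfl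

theorem rhoZ_inv (m : Multiplicative ℤ) (p : ℤ) : (rhoZ m)⁻¹ p = p - Multiplicative.toAdd m := by
  show p + -(Multiplicative.toAdd m) = p - Multiplicative.toAdd m
  rw [sub_eq_add_neg]

/-! ### commutators -/

section one

variable (G : Type) [Group G]

/-- the finite-valued functions on `ℤ` extended by the translations -/
abbrev BB : Type := FV rhoZ G

/-- the function `g` at `0` -/
def dl (g : G) : ℤ → G := fun p => if p = 0 then g else 1

theorem dl_mul (g h : G) : dl G (g * h) = dl G g * dl G h := by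
  funext p
  show (if p = 0 then g * h else 1) = (if p = 0 then g else 1) * (if p = 0 then h else 1)
  split_ifs
  · rfl
  · rw [one_mul]

theorem dl_one : dl G 1 = 1 := by
  funext p
  show (if p = 0 then (1 : G) else 1) = 1
  split_ifs <;> rfl

theorem dl_zero (g : G) : dl G g 0 = g := if_pos rfl

/-- a homomorphism to functions of finite support -/
def dlB : G →* BB G where
  toFun g := ⟨SemidirectProduct.inl (dl G g), by
    refine Set.Finite.subset (Set.toFinite ({g, 1} : Set G)) ?_
    rintro _ ⟨p, rfl⟩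
    show (if p = 0 then g else 1) ∈ _
    split_ifs
    · exact Or.inl rfl
    · exact Or.inr rfl⟩
  map_one' := Subtype.ext (by
    show SemidirectProduct.inl (dl G 1) = 1
    rw [dl_one, map_one])
  map_mul' g h := Subtype.ext (by
    show SemidirectProduct.inl (dl G (g * h)) = SemidirectProduct.inl (dl G g) *
      SemidirectProduct.inl (dl G h)
    rw [dl_mul, map_mul])

theorem dlB_injective : Function.Injective (dlB G) := by
  intro g h hgh
  have h1 : SemidirectProduct.inl (dl G g) = (SemidirectProduct.inl (dl G h) : FW rhoZ G) :=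
    congrArg Subtype.val hgh
  have h2 := congrFun (SemidirectProduct.inl_injective h1) 0
  rwa [dl_zero, dl_zero] at h2

/-- the shift -/
def uB : BB G := ⟨SemidirectProduct.inr (Multiplicative.ofAdd 1), by
  refine Set.Finite.subset (Set.finite_singleton (1 : G)) ?_
  rintro _ ⟨x, rfl⟩
  rfl⟩

/-- the step functions -/
def stp (g : G) : ℤ → G := fun p => if 0 ≤ p then g⁻¹ else 1

/-- the step functions -/
def vB (g : G) : BB G := ⟨SemidirectProduct.inl (stp G g), by
  refine Set.Finite.subset (Set.toFinite ({g⁻¹, 1} : Set G)) ?_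
  rintro _ ⟨p, rfl⟩
  show (if 0 ≤ p then g⁻¹ else 1) ∈ _
  split_ifs
  · exact Or.inl rfl
  · exact Or.inr rfl⟩

theorem comm_uv (g : G) : uB G * vB G g * (uB G)⁻¹ * (vB G g)⁻¹ = dlB G g := by
  apply Subtype.ext
  show SemidirectProduct.inr (Multiplicative.ofAdd 1) * SemidirectProduct.inl (stp G g) *
    (SemidirectProduct.inr (Multiplicative.ofAdd 1))⁻¹ * (SemidirectProduct.inl (stp G g))⁻¹ =
    (SemidirectProduct.inl (dl G g) : FW rhoZ G)
  rw [← map_inv, ← SemidirectProduct.inl_aut, ← map_inv, ← map_mul]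
  congr 1
  funext p
  show stp G g ((rhoZ (Multiplicative.ofAdd 1))⁻¹ p) * (stp G g p)⁻¹ = dl G g p
  rw [rhoZ_inv]
  show (if 0 ≤ p - 1 then g⁻¹ else 1) * (if 0 ≤ p then g⁻¹ else 1)⁻¹ = if p = 0 then g else 1
  rcases lt_trichotomy p 0 with h | h | h
  · rw [if_neg (by omega), if_neg (by omega), if_neg (by omega), inv_one, mul_one]
  · rw [if_neg (by omega), if_pos (by omega), if_pos h, inv_inv, one_mul]
  · rw [if_pos (by omega), if_pos (by omega), if_neg (by omega), inv_inv, inv_mul_cancel]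

end one

/-! ### the sparse functions -/

/-- the logarithm -/
def lg (p : ℤ) : ℕ := Nat.log 3 (2 * p).toNat

theorem lg_nonpos {p : ℤ} (hp : p ≤ 0) : lg p = 0 := by
  unfold lg
  rw [Int.toNat_of_nonpos (by omega)]
  exact Nat.log_zero_right 3

theorem lg_eq {n : ℕ} {p : ℤ} (h1 : (3 : ℤ) ^ n ≤ 2 * p) (h2 : 2 * p < 3 ^ (n + 1)) : lg p = n := by
  unfold lg
  have h0 : (0 : ℤ) < 3 ^ n := by positivity
  refine Nat.log_eq_of_pow_le_of_lt_pow ?_ ?_
  · have h3 : ((3 ^ n : ℕ) : ℤ) ≤ ((2 * p).toNat : ℤ) := by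
      rw [Int.toNat_of_nonneg (by omega)]
      push_cast
      exact h1
    exact_mod_cast h3
  · have h3 : ((2 * p).toNat : ℤ) < ((3 ^ (n + 1) : ℕ) : ℤ) := by
      rw [Int.toNat_of_nonneg (by omega)]
      push_cast
      exact h2
    exact_mod_cast h3

theorem lg_spec {p : ℤ} (hp : 0 < p) : (3 : ℤ) ^ (lg p) ≤ 2 * p ∧ 2 * p < 3 ^ (lg p + 1) := by
  have h0 : (2 * p).toNat ≠ 0 := by omega
  have h1 := Nat.pow_log_le_self 3 h0
  have h2 := Nat.lt_pow_succ_log_self (b := 3) (by norm_num) (2 * p).toNat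
  have h3 : ((2 * p).toNat : ℤ) = 2 * p := Int.toNat_of_nonneg (by omega)
  constructor
  · rw [← h3]
    exact_mod_cast h1
  · rw [← h3]
    exact_mod_cast h2

theorem lg_near {n : ℕ} {i : ℤ} (h : 2 * |i| < 3 ^ n) : lg (3 ^ n + i) = n := by
  have h1 := abs_lt.1 (show |i| < |i| + 1 by omega)
  have h2 : -|i| ≤ i := neg_abs_le i
  have h3 : i ≤ |i| := le_abs_self i
  refine lg_eq ?_ ?_
  · omega
  · rw [pow_succ]
    omega

section sparse

variable {B : Type} [Group B] (V : ℕ → B)

/-- the function with the values `V n ^ a i` at `3 ^ n + i` -/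
def Phi (a : ℤ → Multiplicative ℤ) (p : ℤ) : B :=
  V (lg p) ^ (Multiplicative.toAdd (a (p - 3 ^ lg p)))

theorem Phi_mul (a b : ℤ → Multiplicative ℤ) (p : ℤ) : Phi V (a * b) p = Phi V a p * Phi V b p := by
  unfold Phi
  rw [← zpow_add]
  rfl

theorem Phi_one (p : ℤ) : Phi V 1 p = 1 := by
  unfold Phi
  exact zpow_zero _

/-- the translated function -/
def sh (m : ℤ) (a : ℤ → Multiplicative ℤ) : ℤ → Multiplicative ℤ := fun j => a (j - m)

theorem Phi_sh (m : ℤ) (a : ℤ → Multiplicative ℤ) (ha : {j | a j ≠ 1}.Finite) :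
    {p | Phi V a (p - m) ≠ Phi V (sh m a) p}.Finite := by
  obtain ⟨r, hr⟩ : ∃ r : ℤ, ∀ j, a j ≠ 1 → |j| ≤ r := by
    obtain ⟨r, hr⟩ := (ha.image fun j => |j|).bddAbove
    exact ⟨r, fun j hj => hr ⟨j, hj, rfl⟩⟩
  have hM : ∀ p : ℤ, 3 * (|r| + |m|) + |m| < |p| → Phi V a (p - m) = Phi V (sh m a) p := by
    intro p hp
    have hm1 := neg_abs_le m
    have hm2 := le_abs_self m
    have hr1 := neg_abs_le r
    have hr2 := le_abs_self r
    have hr3 := abs_nonneg r
    have hm3 := abs_nonneg m
    rcases lt_or_ge p 0 with hp0 | hp0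
    · rw [abs_of_neg hp0] at hp
      unfold Phi sh
      rw [lg_nonpos (show p - m ≤ 0 by omega), lg_nonpos (show p ≤ 0 by omega)]
      congr 3
      ring
    · rw [abs_of_nonneg hp0] at hp
      by_cases hN : lg (p - m) = lg p
      · unfold Phi sh
        rw [hN]
        congr 3
        ring
      · have hpos : 0 < p := by omega
        have hpos' : 0 < p - m := by omega
        have h1 := lg_spec hpos
        have h2 := lg_spec hpos'
        have h3 : sh m a (p - 3 ^ lg p) = 1 := by
          by_contra hne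
          have h4 := hr _ hne
          apply hN
          have h5 : p - m = 3 ^ lg p + (p - 3 ^ lg p - m) := by ring
          rw [h5]
          refine lg_near ?_
          rw [pow_succ] at h1
          omega
        have h4 : a (p - m - 3 ^ lg (p - m)) = 1 := by
          by_contra hne
          have h4 := hr _ hne
          apply hN
          have h5 : p = 3 ^ lg (p - m) + ((p - m - 3 ^ lg (p - m)) + m) := by ring
          have h6 : lg p = lg (p - m) := by
            conv_lhs => rw [h5]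
            refine lg_near ?_
            have h7 := abs_add_le (p - m - 3 ^ lg (p - m)) m
            rw [pow_succ] at h2
            omega
          exact h6.symm
        unfold Phi
        rw [h3, h4]
        simp
  refine Set.Finite.subset (Set.finite_Icc (-(3 * (|r| + |m|) + |m|)) (3 * (|r| + |m|) + |m|)) ?_
  intro p hp
  have h1 : |p| ≤ 3 * (|r| + |m|) + |m| := by
    by_contra h
    exact hp (hM p (by omega))
  exact abs_le.1 h1

theorem Phi_inv (a : ℤ → Multiplicative ℤ) (p : ℤ) : Phi V a⁻¹ p = (Phi V a p)⁻¹ := by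
  unfold Phi
  rw [← zpow_neg]
  rfl

theorem mul_left_apply {A : Type} [Group A] (x y : FW rhoZ A) (p : ℤ) :
    (x * y).left p = x.left p * y.left (p - Multiplicative.toAdd x.right) := by
  rw [SemidirectProduct.mul_left]
  show x.left p * y.left ((rhoZ x.right)⁻¹ p) = _
  rw [rhoZ_inv]

theorem inv_left_apply {A : Type} [Group A] (x : FW rhoZ A) (p : ℤ) :
    (x⁻¹).left p = (x.left (p + Multiplicative.toAdd x.right))⁻¹ := by
  rw [SemidirectProduct.inv_left]
  show (shAut rhoZ A x.right⁻¹ x.left⁻¹) p = _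
  rw [shAut_apply, rhoZ_inv, toAdd_inv, sub_neg_eq_add]
  rfl

/-- the functions which agree with a function `Phi V a` outside a finite set, with the function `a` -/
def DD : Subgroup (FW rhoZ B × FW rhoZ (Multiplicative ℤ)) where
  carrier := {z | z.1.right = z.2.right ∧ {p | z.2.left p ≠ 1}.Finite ∧
    {p | z.1.left p ≠ Phi V z.2.left p}.Finite}
  one_mem' := by
    refine ⟨rfl, Set.Finite.subset Set.finite_empty ?_, Set.Finite.subset Set.finite_empty ?_⟩
    · intro p hp
      exact hp rfl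
    · intro p hp
      exact hp (Phi_one V p).symm
  mul_mem' := by
    rintro x y ⟨x1, x2, x3⟩ ⟨y1, y2, y3⟩
    obtain ⟨m, hm⟩ : ∃ m : ℤ, m = Multiplicative.toAdd x.2.right := ⟨_, rfl⟩
    have hl : (x * y).2.left = x.2.left * sh m y.2.left := by
      funext p
      rw [Prod.snd_mul, mul_left_apply, ← hm]
      rfl
    refine ⟨?_, ?_, ?_⟩
    · rw [Prod.fst_mul, Prod.snd_mul, SemidirectProduct.mul_right, SemidirectProduct.mul_right, x1, y1]
    · refine Set.Finite.subset (x2.union (y2.preimage (f := fun p => p - m)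
        (fun a _ b _ h => by simpa using h))) ?_
      intro p hp
      rw [hl] at hp
      by_contra hno
      rw [Set.mem_union, not_or] at hno
      have h1 : x.2.left p = 1 := not_not.1 hno.1
      have h2 : y.2.left (p - m) = 1 := not_not.1 hno.2
      apply hp
      show x.2.left p * y.2.left (p - m) = 1
      rw [h1, h2, one_mul]
    · refine Set.Finite.subset ((x3.union (y3.preimage (f := fun p => p - m)
        (fun a _ b _ h => by simpa using h))).union (Phi_sh V m y.2.left y2)) ?_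
      intro p hp
      by_contra hno
      rw [Set.mem_union, Set.mem_union, not_or, not_or] at hno
      have h1 : x.1.left p = Phi V x.2.left p := not_not.1 hno.1.1
      have h2 : y.1.left (p - m) = Phi V y.2.left (p - m) := not_not.1 hno.1.2
      have h3 : Phi V y.2.left (p - m) = Phi V (sh m y.2.left) p := not_not.1 hno.2
      apply hp
      rw [hl, Phi_mul, ← h3, ← h2, ← h1, Prod.fst_mul, mul_left_apply, x1, ← hm]
  inv_mem' := by
    rintro x ⟨x1, x2, x3⟩
    obtain ⟨m, hm⟩ : ∃ m : ℤ, m = Multiplicative.toAdd x.2.right := ⟨_, rfl⟩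
    have hl : (x⁻¹).2.left = (sh (-m) x.2.left)⁻¹ := by
      funext p
      rw [Prod.snd_inv, inv_left_apply, ← hm]
      show _ = (x.2.left (p - -m))⁻¹
      rw [sub_neg_eq_add]
    refine ⟨?_, ?_, ?_⟩
    · rw [Prod.fst_inv, Prod.snd_inv, SemidirectProduct.inv_right, SemidirectProduct.inv_right, x1]
    · refine Set.Finite.subset (x2.preimage (f := fun p => p + m)
        (fun a _ b _ h => by simpa using h)) ?_
      intro p hp
      rw [hl] at hp
      by_contra hno
      have h1 : x.2.left (p + m) = 1 := not_not.1 hno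
      apply hp
      show (x.2.left (p - -m))⁻¹ = 1
      rw [sub_neg_eq_add, h1, inv_one]
    · refine Set.Finite.subset ((x3.preimage (f := fun p => p + m)
        (fun a _ b _ h => by simpa using h)).union (Phi_sh V (-m) x.2.left x2)) ?_
      intro p hp
      by_contra hno
      rw [Set.mem_union, not_or] at hno
      have h1 : x.1.left (p + m) = Phi V x.2.left (p + m) := not_not.1 hno.1
      have h2 : Phi V x.2.left (p - -m) = Phi V (sh (-m) x.2.left) p := not_not.1 hno.2
      rw [sub_neg_eq_add] at h2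
      apply hp
      rw [hl, Phi_inv, ← h2, ← h1, Prod.fst_inv, inv_left_apply, x1, ← hm]

theorem dd_mem {C : ∀ (G : Type) [Group G], Prop} (hC : ClosedE C) (hB : C B) : C (DD V) := by
  classical
  have hfr : ∀ {A : Type} [Group A] (l : ℤ → A), {p | l p ≠ 1}.Finite → (Set.range l).Finite := by
    intro A _ l hl
    refine Set.Finite.subset ((hl.image l).union (Set.finite_singleton 1)) ?_
    rintro _ ⟨p, rfl⟩
    by_cases h : l p = 1
    · exact Or.inr h
    · exact Or.inl ⟨p, h, rfl⟩
  let pr : DD V →* FV rhoZ (Multiplicative ℤ) :=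
    { toFun := fun x => ⟨(x : FW rhoZ B × FW rhoZ (Multiplicative ℤ)).2, hfr _ x.2.2.1⟩
      map_one' := rfl
      map_mul' := fun _ _ => rfl }
  have hker : ∀ x : DD V, x ∈ pr.ker → (x : FW rhoZ B × FW rhoZ (Multiplicative ℤ)).2 = 1 :=
    fun x hx => congrArg Subtype.val hx
  have hright : ∀ x : DD V, x ∈ pr.ker →
      (x : FW rhoZ B × FW rhoZ (Multiplicative ℤ)).1.right = 1 := fun x hx => by
    rw [x.2.1, hker x hx]
    rfl
  have hsupp : ∀ x : DD V, x ∈ pr.ker →
      {p | (x : FW rhoZ B × FW rhoZ (Multiplicative ℤ)).1.left p ≠ 1}.Finite := fun x hx => by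
    refine Set.Finite.subset x.2.2.2 ?_
    intro p hp
    show _ ≠ _
    rw [hker x hx]
    have h1 : Phi V (1 : FW rhoZ (Multiplicative ℤ)).left p = 1 := Phi_one V p
    rw [h1]
    exact hp
  have hQ : C (DD V ⧸ pr.ker) :=
    hC.base.of_injective _ _ ((pr.range.subtype).comp (QuotientGroup.quotientKerEquivRange pr).toMonoidHom)
      (Subtype.val_injective.comp (MulEquiv.injective _))
      (fv_mem rhoZ hC hC.base.int hC.base.int)
  let ν : pr.ker →* FV rhoZ B :=
    { toFun := fun x => ⟨(x : FW rhoZ B × FW rhoZ (Multiplicative ℤ)).1, hfr _ (hsupp x x.2)⟩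
      map_one' := rfl
      map_mul' := fun _ _ => rfl }
  have hν : Function.Injective ν := by
    intro x y hxy
    have h1 : (x : FW rhoZ B × FW rhoZ (Multiplicative ℤ)).1 =
      (y : FW rhoZ B × FW rhoZ (Multiplicative ℤ)).1 := congrArg Subtype.val hxy
    apply Subtype.ext
    apply Subtype.ext
    refine Prod.ext h1 ?_
    rw [hker x x.2, hker y y.2]
  refine crit C hC (DD V) pr.ker hQ fun g E hE hEN => ?_
  have hle : Subgroup.closure (E ∪ (fun x => g * x * g⁻¹) '' E) ≤ pr.ker := by
    rw [Subgroup.closure_le]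
    rintro y (hy | ⟨z, hz, rfl⟩)
    · exact hEN hy
    · exact Subgroup.Normal.conj_mem inferInstance z (hEN hz) g
  let g1 : FW rhoZ B := (g : FW rhoZ B × FW rhoZ (Multiplicative ℤ)).1
  let F : Set ℤ := ⋃ x ∈ E, (fun ω => rhoZ g1.right ω) ''
    {p | (x : FW rhoZ B × FW rhoZ (Multiplicative ℤ)).1.left p ≠ 1}
  have hF : F.Finite := hE.biUnion fun x hx => (hsupp x (hEN hx)).image _
  let tr : ℤ → B := fun p => if p ∈ F then g1.left p else 1
  have htr : (Set.range tr).Finite := hfr tr (Set.Finite.subset hF (by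
    intro p hp
    by_contra h
    exact hp (if_neg h)))
  refine ⟨FV rhoZ B, inferInstance, ν.comp (Subgroup.inclusion hle), ⟨⟨tr, g1.right⟩, htr⟩,
    fv_mem rhoZ hC hB hC.base.int, hν.comp (Subgroup.inclusion_injective hle), ?_⟩
  intro x y hx hy
  apply Subtype.ext
  have hxN : (x : DD V) ∈ pr.ker := hEN hx
  have hy1 : ((y : DD V) : FW rhoZ B × FW rhoZ (Multiplicative ℤ)).1 =
      g1 * ((x : DD V) : FW rhoZ B × FW rhoZ (Multiplicative ℤ)).1 * g1⁻¹ := by
    rw [hy]
    rfl
  show ((y : DD V) : FW rhoZ B × FW rhoZ (Multiplicative ℤ)).1 = (⟨tr, g1.right⟩ : FW rhoZ B) *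
    ((x : DD V) : FW rhoZ B × FW rhoZ (Multiplicative ℤ)).1 * (⟨tr, g1.right⟩ : FW rhoZ B)⁻¹
  rw [hy1]
  refine SemidirectProduct.ext ?_ ?_
  · funext p
    obtain ⟨ω, rfl⟩ := (rhoZ g1.right).surjective p
    rw [fw_conj rhoZ g1 _ (hright _ hxN)]
    have h1 := fw_conj rhoZ (⟨tr, g1.right⟩ : FW rhoZ B)
      (((x : DD V) : FW rhoZ B × FW rhoZ (Multiplicative ℤ)).1) (hright _ hxN) ω
    have h2 : ((⟨tr, g1.right⟩ : FW rhoZ B) *
      ((x : DD V) : FW rhoZ B × FW rhoZ (Multiplicative ℤ)).1 * (⟨tr, g1.right⟩ : FW rhoZ B)⁻¹).left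
        (rhoZ g1.right ω) = tr (rhoZ g1.right ω) *
          ((x : DD V) : FW rhoZ B × FW rhoZ (Multiplicative ℤ)).1.left ω *
          (tr (rhoZ g1.right ω))⁻¹ := h1
    rw [h2]
    by_cases hω : ((x : DD V) : FW rhoZ B × FW rhoZ (Multiplicative ℤ)).1.left ω = 1
    · rw [hω]
      group
    · have h3 : rhoZ g1.right ω ∈ F := Set.mem_biUnion hx ⟨ω, hω, rfl⟩
      have h4 : tr (rhoZ g1.right ω) = g1.left (rhoZ g1.right ω) := if_pos h3
      rw [h4]
  · rfl

/-- the sparse function -/
def F0 (u : B) : ℤ → B := fun p => if p = 0 then u else if p = 3 ^ lg p then V (lg p) else 1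

theorem F0_zero (u : B) : F0 V u 0 = u := if_pos rfl

theorem F0_pow (u : B) (n : ℕ) : F0 V u (3 ^ n) = V n := by
  have h1 : lg (3 ^ n) = n := by
    have := lg_near (n := n) (i := 0) (by simp)
    rwa [add_zero] at this
  have h2 : (3 : ℤ) ^ n ≠ 0 := by positivity
  unfold F0
  rw [if_neg h2, h1, if_pos rfl]

theorem F0_comm (u : B) (n : ℕ) (p : ℤ) (hp : p ≠ 0) :
    F0 V u p = 1 ∨ F0 V u (p + 3 ^ n) = 1 := by
  by_cases h : p = 3 ^ lg p
  · right
    have h0 : (0 : ℤ) < 3 ^ lg p := by positivity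
    have h0' : (0 : ℤ) < 3 ^ n := by positivity
    unfold F0
    rw [if_neg (by omega), if_neg]
    intro h2
    have h3 : Odd ((3 : ℤ) ^ lg (p + 3 ^ n)) := Odd.pow (by decide)
    have h4 : Even ((3 : ℤ) ^ lg p + 3 ^ n) := (Odd.pow (by decide)).add_odd (Odd.pow (by decide))
    rw [← h, h2] at h4
    exact (Int.not_even_iff_odd.2 h3) h4
  · left
    unfold F0
    rw [if_neg hp, if_neg h]

/-- the first generator -/
def fD (u : B) : FW rhoZ B × FW rhoZ (Multiplicative ℤ) :=
  (SemidirectProduct.inl (F0 V u), SemidirectProduct.inl (dl _ (Multiplicative.ofAdd 1)))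

/-- the second generator -/
def tD : FW rhoZ B × FW rhoZ (Multiplicative ℤ) :=
  (SemidirectProduct.inr (Multiplicative.ofAdd 1), SemidirectProduct.inr (Multiplicative.ofAdd 1))

theorem fD_mem (u : B) : fD V u ∈ DD V := by
  refine ⟨rfl, Set.Finite.subset (Set.finite_singleton 0) ?_,
    Set.Finite.subset (Set.finite_singleton 0) ?_⟩
  · intro p hp
    by_contra h
    exact hp (if_neg h)
  · intro p hp
    by_contra h
    apply hp
    show F0 V u p = V (lg p) ^ Multiplicative.toAdd (dl _ (Multiplicative.ofAdd (1 : ℤ)) (p - 3 ^ lg p))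
    have hp0 : p ≠ 0 := h
    unfold F0 dl
    rw [if_neg hp0]
    by_cases h2 : p = 3 ^ lg p
    · rw [if_pos h2, if_pos (by omega), toAdd_ofAdd, zpow_one]
    · rw [if_neg h2, if_neg (by omega), toAdd_one, zpow_zero]

theorem tD_mem : (tD : FW rhoZ B × FW rhoZ (Multiplicative ℤ)) ∈ DD V := by
  refine ⟨rfl, Set.Finite.subset Set.finite_empty ?_, Set.Finite.subset Set.finite_empty ?_⟩
  · intro p hp
    exact hp rfl
  · intro p hp
    exact hp (Phi_one V p).symm

theorem tD_pow (m : ℕ) : (tD : FW rhoZ B × FW rhoZ (Multiplicative ℤ)) ^ m =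
    (SemidirectProduct.inr (Multiplicative.ofAdd (m : ℤ)),
      SemidirectProduct.inr (Multiplicative.ofAdd (m : ℤ))) := by
  have h1 : (Multiplicative.ofAdd (1 : ℤ)) ^ m = Multiplicative.ofAdd (m : ℤ) := by
    rw [← ofAdd_nsmul, nsmul_eq_mul, mul_one]
  refine Prod.ext ?_ ?_
  · show (SemidirectProduct.inr (Multiplicative.ofAdd 1)) ^ m = _
    rw [← map_pow, h1]
  · show (SemidirectProduct.inr (Multiplicative.ofAdd 1)) ^ m = _
    rw [← map_pow, h1]

theorem conj_inr {A : Type} [Group A] (l : ℤ → A) (m : ℤ) :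
    (SemidirectProduct.inr (Multiplicative.ofAdd m))⁻¹ * SemidirectProduct.inl l *
      SemidirectProduct.inr (Multiplicative.ofAdd m) =
      (SemidirectProduct.inl (fun p => l (p + m)) : FW rhoZ A) := by
  have h1 := SemidirectProduct.inl_aut (φ := shAut rhoZ A) (Multiplicative.ofAdd m)⁻¹ l
  rw [inv_inv] at h1
  rw [← map_inv, ← h1]
  congr 1
  funext p
  rw [shAut_apply, rhoZ_inv, toAdd_inv, toAdd_ofAdd, sub_neg_eq_add]

theorem comm_mem_closure (u : B) (n : ℕ) (w : B) (hw : u * V n * u⁻¹ * (V n)⁻¹ = w) :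
    ((SemidirectProduct.inl (dl B w), 1) : FW rhoZ B × FW rhoZ (Multiplicative ℤ)) ∈
      Subgroup.closure ({fD V u, tD} : Set (FW rhoZ B × FW rhoZ (Multiplicative ℤ))) := by
  obtain ⟨T, hT⟩ : ∃ T, T = (tD : FW rhoZ B × FW rhoZ (Multiplicative ℤ)) ^ (3 ^ n) := ⟨_, rfl⟩
  have hf : fD V u ∈ Subgroup.closure ({fD V u, tD} : Set (FW rhoZ B × FW rhoZ (Multiplicative ℤ))) :=
    Subgroup.subset_closure (Or.inl rfl)
  have ht : T ∈ Subgroup.closure ({fD V u, tD} : Set (FW rhoZ B × FW rhoZ (Multiplicative ℤ))) := by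
    have h0 : (tD : FW rhoZ B × FW rhoZ (Multiplicative ℤ)) ∈
        Subgroup.closure ({fD V u, tD} : Set (FW rhoZ B × FW rhoZ (Multiplicative ℤ))) :=
      Subgroup.subset_closure (Or.inr rfl)
    rw [hT]
    exact pow_mem h0 _
  have hmain : ((SemidirectProduct.inl (dl B w), 1) : FW rhoZ B × FW rhoZ (Multiplicative ℤ)) =
      fD V u * (T⁻¹ * fD V u * T) * (fD V u)⁻¹ * (T⁻¹ * fD V u * T)⁻¹ := by
    have h1 : T⁻¹ * fD V u * T = (SemidirectProduct.inl (fun p => F0 V u (p + 3 ^ n)),
        SemidirectProduct.inl (fun p => dl _ (Multiplicative.ofAdd (1 : ℤ)) (p + 3 ^ n))) := by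
      rw [hT, tD_pow]
      refine Prod.ext ?_ ?_
      · have h2 := conj_inr (F0 V u) (((3 ^ n : ℕ) : ℤ))
        push_cast at h2 ⊢
        exact h2
      · have h2 := conj_inr (dl _ (Multiplicative.ofAdd (1 : ℤ))) (((3 ^ n : ℕ) : ℤ))
        push_cast at h2 ⊢
        exact h2
    rw [h1]
    refine Prod.ext ?_ ?_
    · show SemidirectProduct.inl (dl B w) = SemidirectProduct.inl (F0 V u) *
        SemidirectProduct.inl (fun p => F0 V u (p + 3 ^ n)) * (SemidirectProduct.inl (F0 V u))⁻¹ *
        (SemidirectProduct.inl (fun p => F0 V u (p + 3 ^ n)))⁻¹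
      rw [← map_inv, ← map_inv, ← map_mul, ← map_mul, ← map_mul]
      congr 1
      funext p
      show dl B w p = F0 V u p * F0 V u (p + 3 ^ n) * (F0 V u p)⁻¹ * (F0 V u (p + 3 ^ n))⁻¹
      by_cases hp : p = 0
      · rw [hp, dl_zero, F0_zero, zero_add, F0_pow, hw]
      · have h2 : dl B w p = 1 := if_neg hp
        rw [h2]
        rcases F0_comm V u n p hp with h3 | h3
        · rw [h3]; group
        · rw [h3]; group
    · show (1 : FW rhoZ (Multiplicative ℤ)) =
        SemidirectProduct.inl (dl _ (Multiplicative.ofAdd (1 : ℤ))) *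
        SemidirectProduct.inl (fun p => dl _ (Multiplicative.ofAdd (1 : ℤ)) (p + 3 ^ n)) *
        (SemidirectProduct.inl (dl _ (Multiplicative.ofAdd (1 : ℤ))))⁻¹ *
        (SemidirectProduct.inl (fun p => dl _ (Multiplicative.ofAdd (1 : ℤ)) (p + 3 ^ n)))⁻¹
      rw [← map_inv, ← map_inv, ← map_mul, ← map_mul, ← map_mul, ← map_one SemidirectProduct.inl]
      congr 1
      rw [mul_comm (dl _ (Multiplicative.ofAdd (1 : ℤ))), mul_inv_cancel_right, mul_inv_cancel]
  rw [hmain]
  exact mul_mem (mul_mem (mul_mem hf (mul_mem (mul_mem (inv_mem ht) hf) ht)) (inv_mem hf))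
    (inv_mem (mul_mem (mul_mem (inv_mem ht) hf) ht))

end sparse

theorem TF.int : TF (Multiplicative ℤ) := by
  intro g k hk hg
  have h1 : (k : ℤ) * Multiplicative.toAdd g = 0 := by
    have h2 := congrArg Multiplicative.toAdd hg
    rwa [toAdd_pow, toAdd_one, nsmul_eq_mul] at h2
  rcases mul_eq_zero.1 h1 with h | h
  · exact absurd (by exact_mod_cast h) hk.ne'
  · exact Multiplicative.toAdd.injective h

theorem TF.prod {A B : Type} [Group A] [Group B] (hA : TF A) (hB : TF B) : TF (A × B) :=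
  fun g k hk hg => Prod.ext (hA g.1 k hk (congrArg Prod.fst hg)) (hB g.2 k hk (congrArg Prod.snd hg))

/-- **embedding of countable groups into 2-generated groups** -/
theorem two_gen (G : Type) [Group G] [Countable G] : ∃ (K : Type) (_ : Group K) (f : G →* K)
    (a b : K), Function.Injective f ∧ Subgroup.closure {a, b} = ⊤ ∧ (TF G → TF K) ∧
      ∀ C : ∀ (G : Type) [Group G], Prop, ClosedE C → C G → C K := by
  obtain ⟨γ, hγ⟩ := exists_surjective_nat G
  let V : ℕ → BB G := fun n => vB G (γ n)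
  let S : Set (FW rhoZ (BB G) × FW rhoZ (Multiplicative ℤ)) := {fD V (uB G), tD}
  have hS : Subgroup.closure S ≤ DD V := by
    rw [Subgroup.closure_le]
    rintro x (rfl | rfl)
    · exact fD_mem V (uB G)
    · exact tD_mem V
  let j : G →* FW rhoZ (BB G) × FW rhoZ (Multiplicative ℤ) :=
    MonoidHom.prod (SemidirectProduct.inl.comp
      { toFun := fun g => dl (BB G) (dlB G g)
        map_one' := by rw [map_one, dl_one]
        map_mul' := fun g h => by rw [map_mul, dl_mul] }) 1
  have hj : ∀ g, j g ∈ Subgroup.closure S := by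
    intro g
    obtain ⟨n, rfl⟩ := hγ g
    exact comm_mem_closure V (uB G) n (dlB G (γ n)) (comm_uv G (γ n))
  refine ⟨Subgroup.closure S, inferInstance, j.codRestrict _ hj,
    ⟨fD V (uB G), Subgroup.subset_closure (Or.inl rfl)⟩,
    ⟨tD, Subgroup.subset_closure (Or.inr rfl)⟩, ?_, ?_, ?_, ?_⟩
  · intro g h hgh
    have h1 : j g = j h := congrArg Subtype.val hgh
    have h2 := SemidirectProduct.inl_injective (congrArg Prod.fst h1)
    have h3 := congrFun h2 0
    have h4 : dl (BB G) (dlB G g) 0 = dl (BB G) (dlB G h) 0 := h3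
    rw [dl_zero, dl_zero] at h4
    exact dlB_injective G h4
  · have h1 := Subgroup.closure_closure_coe_preimage (k := S)
    rw [← h1]
    congr 1
    ext x
    simp only [Set.mem_insert_iff, Set.mem_singleton_iff, Set.mem_preimage, Subtype.ext_iff, S]
  · intro hG
    exact TF.of_injective (Subgroup.closure S).subtype Subtype.val_injective
      (TF.prod (fw_tf rhoZ (TF.of_injective (FV rhoZ G).subtype Subtype.val_injective
        (fw_tf rhoZ hG TF.int)) TF.int) (fw_tf rhoZ TF.int TF.int))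
  · intro C hC hG
    exact hC.base.of_injective _ _ (Subgroup.inclusion hS) (Subgroup.inclusion_injective hS)
      (dd_mem V hC (fv_mem rhoZ hC hG hC.base.int))

end Pool.Agent.R630.FJ
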